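import Pool.Agent.N956.PL.Inf
import Mathlib.Probability.Independence.ZeroOne

/-!
The zero-one law of Kolmogorov for events which do not depend on the edges near the corner.
-/

set_option autoImplicit false

namespace Pool.Agent.N956.PL

open MeasureTheory ProbabilityTheory H974 Filter Topology
open scoped ENNReal

/-- the edges between two successive boxes -/
noncomputable def Rk (k : ℕ) : Finset Edg := RE 0 ((k + 1 : ℕ) : ℤ) 0 ((k + 1 : ℕ) : ℤ) \ RE 0 (k:ℤ) 0 (k:ℤ)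

theorem RE_mono {a b : ℕ} (h : a ≤ b) : RE 0 (a:ℤ) 0 (a:ℤ) ⊆ RE 0 (b:ℤ) 0 (b:ℤ) := by
  rintro ⟨x, y, t⟩ he
  have : (a:ℤ) ≤ b := by exact_mod_cast h
  cases t
  · rw [mem_RE_false] at he ⊢; omega
  · rw [mem_RE_true] at he ⊢; omega

theorem Rk_disj (i j : ℕ) (hij : i ≠ j) : Disjoint (Rk i) (Rk j) := by
  have key : ∀ i j : ℕ, i < j → Disjoint (Rk i) (Rk j) := by
    intro i j h
    rw [Finset.disjoint_left]
    intro e h1 h2
    unfold Rk at h1 h2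
    rw [Finset.mem_sdiff] at h1 h2
    exact h2.2 (RE_mono (show i + 1 ≤ j by omega) h1.1)
  rcases Nat.lt_or_gt_of_ne hij with h | h
  · exact key i j h
  · exact (key j i h).symm

/-- the sigma-algebra of the edges between two successive boxes -/
noncomputable abbrev sk (k : ℕ) : MeasurableSpace (Edg → Bool) := MeasurableSpace.comap (fun ω => op (Rk k) ω) ⊤

theorem sk_le (k : ℕ) : sk k ≤ (MeasurableSpace.pi : MeasurableSpace (Edg → Bool)) := by
  rintro s ⟨B, -, rfl⟩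
  exact meas_op (Rk k) (fun F => F ∈ B)

theorem sk_indep : iIndep sk crit := by
  rw [iIndep_iff]
  intro s f hf
  choose! B hB using hf
  have e : ∀ i ∈ s, f i = {ω : Edg → Bool | op (Rk i) ω ∈ B i} := fun i hi => (hB i hi).2.symm
  have e1 : (⋂ i ∈ s, f i) = ⋂ i ∈ s, {ω : Edg → Bool | op (Rk i) ω ∈ B i} :=
    Set.iInter₂_congr e
  rw [e1, ind_prod Rk Rk_disj s (fun i F => F ∈ B i)]
  exact Finset.prod_congr rfl fun i hi => by rw [e i hi]

/-- the state of an edge between two successive boxes -/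
theorem meas_edge {k : ℕ} {e : Edg} (he : e ∈ Rk k) : MeasurableSet[sk k] {ω : Edg → Bool | ω e = true} := by
  refine ⟨{F | e ∈ F}, trivial, ?_⟩
  ext ω
  simp only [Set.mem_preimage, Set.mem_ofPred_eq, op, Finset.mem_filter, he, true_and]

/-- events of finitely many edges outside the box of size `k` -/
theorem meas_out {k : ℕ} {S : Finset Edg} (hS : ∀ e ∈ S, ∃ j, k ≤ j ∧ e ∈ Rk j)
    (A : Finset Edg → Prop) :
    MeasurableSet[⨆ j, ⨆ _ : k ≤ j, sk j] {ω : Edg → Bool | A (op S ω)} := by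
  classical
  have h1 : ∀ e ∈ S, MeasurableSet[⨆ j, ⨆ _ : k ≤ j, sk j] {ω : Edg → Bool | ω e = true} := by
    intro e he
    obtain ⟨j, hj, hej⟩ := hS e he
    exact (le_iSup₂_of_le j hj le_rfl : sk j ≤ ⨆ j, ⨆ _ : k ≤ j, sk j) _ (meas_edge hej)
  rw [op_union]
  refine @Finset.measurableSet_biUnion _ _ (⨆ j, ⨆ _ : k ≤ j, sk j) _ _ fun F hF => ?_
  have hFS : F ⊆ S := Finset.mem_powerset.1 (Finset.mem_filter.1 hF).1
  have e1 : {ω : Edg → Bool | op S ω = F} = ⋂ e ∈ S, (if e ∈ F then {ω : Edg → Bool | ω e = true}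
      else {ω : Edg → Bool | ω e = true}ᶜ) := by
    ext ω
    rw [cyl_set hFS]
    simp only [Set.mem_pi, Finset.mem_coe, Set.mem_singleton_iff, Set.mem_iInter]
    refine forall_congr' fun e => forall_congr' fun he => ?_
    by_cases h : e ∈ F
    · simp [h]
    · simp [h]
  rw [e1]
  refine @Finset.measurableSet_biInter _ _ (⨆ j, ⨆ _ : k ≤ j, sk j) _ _ fun e he => ?_
  split_ifs
  · exact h1 e he
  · exact (h1 e he).compl

/-- Zero-one law: `D k n` is an event of the edges of the box of size `n` which are not in the box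
of size `k`, and almost surely `D 0 n` and `D k n` agree for large `n`. -/
theorem zero_one (D : ℕ → Finset Edg → Prop)
    (h : ∀ k : ℕ, ∀ᵐ ω ∂crit, ∀ᶠ n : ℕ in atTop, (D n (op (RE 0 (n:ℤ) 0 (n:ℤ)) ω) ↔
      D n (op (RE 0 (n:ℤ) 0 (n:ℤ) \ RE 0 (k:ℤ) 0 (k:ℤ)) ω))) :
    (∀ᵐ ω ∂crit, ∃ᶠ n : ℕ in atTop, D n (op (RE 0 (n:ℤ) 0 (n:ℤ)) ω)) ∨
      ∀ᵐ ω ∂crit, ∀ᶠ n : ℕ in atTop, ¬ D n (op (RE 0 (n:ℤ) 0 (n:ℤ)) ω) := by
  obtain ⟨A, hA⟩ : ∃ A : ℕ → Set (Edg → Bool), A = fun (k : ℕ) => {ω | ∃ᶠ n : ℕ in atTop,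
    D n (op (RE 0 (n:ℤ) 0 (n:ℤ) \ RE 0 (k:ℤ) 0 (k:ℤ)) ω)} := ⟨_, rfl⟩
  have hAm : ∀ m k : ℕ, m ≤ k → MeasurableSet[⨆ j, ⨆ _ : m ≤ j, sk j] (A k) := by
    intro m k hmk
    have e : A k = ⋂ N : ℕ, ⋃ n : ℕ, ⋃ _ : N ≤ n, {ω : Edg → Bool |
        D n (op (RE 0 (n:ℤ) 0 (n:ℤ) \ RE 0 (k:ℤ) 0 (k:ℤ)) ω)} := by
      ext ω
      rw [hA]
      simp only [Set.mem_ofPred_eq, frequently_atTop, Set.mem_iInter, Set.mem_iUnion, exists_prop]
    rw [e]
    refine @MeasurableSet.iInter _ _ (⨆ j, ⨆ _ : m ≤ j, sk j) _ _ fun N => ?_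
    refine @MeasurableSet.iUnion _ _ (⨆ j, ⨆ _ : m ≤ j, sk j) _ _ fun n => ?_
    refine @MeasurableSet.iUnion _ _ (⨆ j, ⨆ _ : m ≤ j, sk j) _ _ fun _ => ?_
    refine meas_out ?_ _
    intro e he
    rw [Finset.mem_sdiff] at he
    have hex : ∃ j : ℕ, e ∈ RE 0 (j:ℤ) 0 (j:ℤ) := ⟨n, he.1⟩
    classical
    obtain ⟨j, hj⟩ : ∃ j, j = Nat.find hex := ⟨_, rfl⟩
    have h1 : e ∈ RE 0 (j:ℤ) 0 (j:ℤ) := by rw [hj]; exact Nat.find_spec hex
    have h2 : k < j := by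
      by_contra hcon
      exact he.2 (RE_mono (not_lt.1 hcon) h1)
    have h3 : e ∉ RE 0 ((j - 1 : ℕ) : ℤ) 0 ((j - 1 : ℕ) : ℤ) := by
      have := Nat.find_min hex (m := j - 1) (by omega)
      exact this
    refine ⟨j - 1, by omega, ?_⟩
    unfold Rk
    rw [Finset.mem_sdiff, show j - 1 + 1 = j by omega]
    exact ⟨h1, h3⟩
  obtain ⟨B, hB⟩ : ∃ B : Set (Edg → Bool), B = {ω | ∃ᶠ k : ℕ in atTop, ω ∈ A k} := ⟨_, rfl⟩
  have hBm : MeasurableSet[limsup sk atTop] B := by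
    have e0 : limsup sk atTop = ⨅ m : ℕ, ⨆ j, ⨆ _ : m ≤ j, sk j := limsup_eq_iInf_iSup_of_nat
    rw [e0, MeasurableSpace.measurableSet_iInf]
    intro m
    have e : B = ⋂ K : ℕ, ⋃ k : ℕ, ⋃ _ : max K m ≤ k, A k := by
      ext ω
      rw [hB]
      simp only [Set.mem_ofPred_eq, frequently_atTop, Set.mem_iInter, Set.mem_iUnion, exists_prop]
      constructor
      · intro h K
        obtain ⟨k, hk, hk2⟩ := h (max K m)
        exact ⟨k, hk, hk2⟩
      · intro h K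
        obtain ⟨k, hk, hk2⟩ := h K
        exact ⟨k, (le_max_left _ _).trans hk, hk2⟩
    rw [e]
    refine @MeasurableSet.iInter _ _ (⨆ j, ⨆ _ : m ≤ j, sk j) _ _ fun K => ?_
    refine @MeasurableSet.iUnion _ _ (⨆ j, ⨆ _ : m ≤ j, sk j) _ _ fun k => ?_
    refine @MeasurableSet.iUnion _ _ (⨆ j, ⨆ _ : m ≤ j, sk j) _ _ fun hk => ?_
    exact hAm m k ((le_max_right _ _).trans hk)
  have hall : ∀ᵐ ω ∂crit, ∀ k, ((∃ᶠ n : ℕ in atTop, D n (op (RE 0 (n:ℤ) 0 (n:ℤ)) ω)) ↔ ω ∈ A k) := by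
    rw [ae_all_iff]
    intro k
    filter_upwards [h k] with ω hω
    rw [hA]
    exact frequently_congr hω
  have hBiff : ∀ᵐ ω ∂crit, ((∃ᶠ n : ℕ in atTop, D n (op (RE 0 (n:ℤ) 0 (n:ℤ)) ω)) ↔ ω ∈ B) := by
    filter_upwards [hall] with ω hω
    rw [hB]
    simp only [Set.mem_ofPred_eq]
    constructor
    · intro h1
      exact Frequently.of_forall fun k => (hω k).1 h1
    · intro h1
      obtain ⟨k, hk⟩ := h1.exists
      exact (hω k).2 hk
  rcases measure_zero_or_one_of_measurableSet_limsup_atTop sk_le sk_indep hBm with h0 | h1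
  · right
    have h2 : ∀ᵐ ω ∂crit, ω ∉ B := measure_eq_zero_iff_ae_notMem.1 h0
    filter_upwards [hBiff, h2] with ω hω hω2
    rw [← not_frequently]
    exact fun hcon => hω2 (hω.1 hcon)
  · left
    have hBm' : MeasurableSet B := by
      have h3 : limsup sk atTop ≤ (MeasurableSpace.pi : MeasurableSpace (Edg → Bool)) :=
        limsup_le_iSup.trans (iSup_le sk_le)
      exact h3 _ hBm
    have h2 : ∀ᵐ ω ∂crit, ω ∈ B := (prob_compl_eq_zero_iff hBm').2 h1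
    filter_upwards [hBiff, h2] with ω hω hω2
    exact hω.2 hω2

end Pool.Agent.N956.PL
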