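import Pool.Agent.N956.PL.Up
import Pool.Agent.N956.PL.ZO

/-!
The upper limit is almost surely constant.
-/

set_option autoImplicit false

namespace Pool.Agent.N956.PL

open H974 H342P H342P.Plain H984P H984N MeasureTheory Filter Topology

/-- there is a cluster with the largest diameter -/
theorem ex_largest (n : ℕ) (F : Finset Edg) : ∃ v, Largest n F v := by
  classical
  obtain ⟨S, hS⟩ : ∃ S : Finset (Vtx × Vtx), S = (box n ×ˢ box n).filter
    (fun p => p.2 ∈ cluster F p.1) := ⟨_, rfl⟩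
  have h0 : ((0, 0) : Vtx) ∈ box n := by
    rw [mem_box]
    unfold inR
    simp
  have hne : S.Nonempty := by
    refine ⟨((0, 0), (0, 0)), ?_⟩
    rw [hS, Finset.mem_filter, Finset.mem_product]
    exact ⟨⟨h0, h0⟩, (cluster_coe _ _ _).2 (Reach.refl _ _)⟩
  obtain ⟨p, hp, hmax⟩ := Finset.exists_max_image S (fun p => sqDist p.1 p.2) hne
  rw [hS, Finset.mem_filter, Finset.mem_product] at hp
  refine ⟨p.1, hp.1.1, p.1, (cluster_coe _ _ _).2 (Reach.refl _ _), p.2, hp.2, ?_⟩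
  intro c hc d hd hcd
  exact hmax (c, d) (by rw [hS, Finset.mem_filter, Finset.mem_product]; exact ⟨⟨hc, hd⟩, hcd⟩)

/-- a good event for a fixed small box -/
def Gq (k q : ℕ) (F : Finset Edg) : Prop :=
  ¬ H12S.Crs 0 0 k (2 ^ (q + 2)) (↑F) ∧
    Big (4 ^ (q + 2)) ((2 ^ (q + 2) : ℕ) : ℤ)
      (↑(F ∩ RE 0 ((4 ^ (q + 2) : ℕ) : ℤ) 0 ((4 ^ (q + 2) : ℕ) : ℤ)))

theorem Gq_sum {k : ℕ} (hk : 1 ≤ k) :
    Summable fun q : ℕ => P2 (Bo (4 ^ (q + 3))) (fun F => ¬ Gq k q F) := by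
  obtain ⟨C, c, hC, hc, h⟩ := H985T.BL_arm
  have hk0 : (0:ℝ) < k := by exact_mod_cast hk
  have hs : Summable (fun q : ℕ => C * (k:ℝ) ^ c * ((1/2 : ℝ) ^ c) ^ (q + 2) + (1/2 : ℝ) ^ q) := by
    refine Summable.add (Summable.mul_left _ ?_)
      (summable_geometric_of_lt_one (by norm_num) (by norm_num))
    exact (summable_nat_add_iff 2).2 (summable_geometric_of_lt_one (by positivity)
      (Real.rpow_lt_one (by norm_num) (by norm_num) hc))
  refine Summable.of_norm_bounded_eventually_nat hs ?_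
  filter_upwards [eventually_ge_atTop k] with q hq
  rw [Real.norm_of_nonneg (Pr_nonneg ok2 _ _)]
  have hkR : k ≤ 2 ^ (q + 2) := by
    have h1 : q + 2 < 2 ^ (q + 2) := Nat.lt_two_pow_self
    omega
  have h1 := (h k (2 ^ (q + 2)) hk hkR 0 0 (Bo (4 ^ (q + 3)))).1
  have e1 : ((k : ℝ) / ((2 ^ (q + 2) : ℕ) : ℝ)) ^ c = (k:ℝ) ^ c * ((1/2 : ℝ) ^ c) ^ (q + 2) := by
    have e2 : (k : ℝ) / ((2 ^ (q + 2) : ℕ) : ℝ) = k * (1/2) ^ (q + 2) := by
      push_cast
      rw [one_div, inv_pow]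
      rfl
    rw [e2, Real.mul_rpow hk0.le (by positivity)]
    congr 1
    rw [← Real.rpow_natCast, ← Real.rpow_natCast, ← Real.rpow_mul (by norm_num),
      ← Real.rpow_mul (by norm_num), mul_comm]
  rw [e1, ← mul_assoc] at h1
  have h4 : 4 ^ (q + 2) = 2 ^ q * (4 * 2 ^ (q + 2)) := by
    rw [show (4:ℕ) = 2 ^ 2 by norm_num, ← pow_mul, ← pow_add, ← pow_add]
    congr 1
    ring
  have h2 : P2 (Bo (4 ^ (q + 3))) (fun F => ¬ Big (4 ^ (q + 2)) ((2 ^ (q + 2) : ℕ) : ℤ)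
      (↑(F ∩ RE 0 ((4 ^ (q + 2) : ℕ) : ℤ) 0 ((4 ^ (q + 2) : ℕ) : ℤ)))) ≤ (1/2) ^ q := by
    have hsub : RE 0 ((4 ^ (q + 2) : ℕ) : ℤ) 0 ((4 ^ (q + 2) : ℕ) : ℤ) ⊆ Bo (4 ^ (q + 3)) :=
      Bo_mono (Nat.pow_le_pow_right (by norm_num) (by omega))
    rw [P2, Pr_local hsub (A := fun F : Finset Edg => ¬ Big (4 ^ (q + 2)) ((2 ^ (q + 2) : ℕ) : ℤ)
      (↑(F ∩ RE 0 ((4 ^ (q + 2) : ℕ) : ℤ) 0 ((4 ^ (q + 2) : ℕ) : ℤ))))
      (fun F _ => by rw [Finset.inter_assoc, Finset.inter_self])]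
    rw [Pr_congr (B := fun F : Finset Edg => ¬ Big (4 ^ (q + 2)) ((2 ^ (q + 2) : ℕ) : ℤ) (↑F))
      (fun F hF => by rw [Finset.inter_eq_left.2 hF])]
    have hR1 : 1 ≤ 2 ^ (q + 2) := Nat.one_le_two_pow
    have hJ : 2 ^ q * (3 * 2 ^ (q + 2) + 1) ≤ 4 ^ (q + 2) + 1 := by
      have h5 : 2 ^ q * (3 * 2 ^ (q + 2) + 1) ≤ 2 ^ q * (4 * 2 ^ (q + 2)) :=
        Nat.mul_le_mul_left _ (by omega)
      omega
    refine (TH494.PT.pr_not_big2 (n := 4 ^ (q + 2)) (L := 3 * 2 ^ (q + 2)) (J := 2 ^ q)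
      (m := ((2 ^ (q + 2) : ℕ) : ℤ)) (by omega) (by positivity) (by push_cast; exact le_refl _)
      (by exact_mod_cast hJ) Nat.one_le_two_pow).trans ?_
    refine pow_le_pow_of_le_one (by norm_num) (by norm_num) ?_
    have h6 : q < 2 ^ q := Nat.lt_two_pow_self
    nlinarith
  refine (Pr_mono ok2 (B := fun F => H12S.Crs 0 0 k (2 ^ (q + 2)) (↑F : Set Edg) ∨
    ¬ Big (4 ^ (q + 2)) ((2 ^ (q + 2) : ℕ) : ℤ)
      (↑(F ∩ RE 0 ((4 ^ (q + 2) : ℕ) : ℤ) 0 ((4 ^ (q + 2) : ℕ) : ℤ)) : Set Edg)) ?_).trans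
      ((Pr_or_le ok2 _ _ _).trans (add_le_add h1 h2))
  intro F _ hF
  unfold Gq at hF
  rw [not_and_or, not_not] at hF
  exact hF

theorem crs_mono {k R : ℕ} {F G : Set Edg} (h : F ⊆ G) (hc : H12S.Crs 0 0 k R F) :
    H12S.Crs 0 0 k R G := by
  obtain ⟨x, y, hx, hy, hr⟩ := hc
  exact ⟨x, y, hx, hy, hr.mono h⟩

theorem good_ev {k : ℕ} (hk : 1 ≤ k) :
    ∀ᵐ ω ∂crit, ∀ᶠ n : ℕ in atTop, ∃ R, Good k R n (op (Bo n) ω) := by
  filter_upwards [bc1 (fun q => Bo (4 ^ (q + 3))) (fun q F => ¬ Gq k q F) (Gq_sum hk)] with ω hω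
  have hlog4 : Tendsto (fun n : ℕ => Nat.log 4 n - 2) atTop atTop :=
    tendsto_atTop.2 fun b => eventually_atTop.2 ⟨4 ^ (b + 2), fun n hn => by
      have := Nat.le_log_of_pow_le (by norm_num) hn
      omega⟩
  filter_upwards [hlog4.eventually hω, eventually_ge_atTop 16] with n h1 hn
  obtain ⟨q, hq⟩ : ∃ q, q = Nat.log 4 n - 2 := ⟨_, rfl⟩
  have hl2 : 2 ≤ Nat.log 4 n := Nat.le_log_of_pow_le (by norm_num) (by norm_num; exact hn)
  have e : Nat.log 4 n = q + 2 := by omega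
  rw [← hq, not_not] at h1
  have hqn : 4 ^ (q + 2) ≤ n := by rw [← e]; exact Nat.pow_log_le_self 4 (by omega)
  have hqn2 : n ≤ 4 ^ (q + 3) := by
    have := Nat.lt_pow_succ_log_self (b := 4) (by norm_num) n
    rw [e] at this
    exact this.le
  have hFn : op (Bo (4 ^ (q + 3))) ω ∩ RE 0 n 0 n = op (Bo n) ω := op_inter (Bo_mono hqn2) ω
  refine ⟨2 ^ (q + 2), fun hc => h1.1 (crs_mono ?_ hc), ?_⟩
  · rw [← hFn]
    exact Finset.coe_subset.2 Finset.inter_subset_left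
  · rw [← hFn]
    exact big_mono hqn h1.2

theorem op_sdiff' (k n : ℕ) (ω : Edg → Bool) :
    op (Bo n \ Bo k) ω = op (Bo n) ω \ Bo k := by
  ext e
  unfold op
  simp only [Finset.mem_filter, Finset.mem_sdiff]
  tauto

/-- the event of a long perimeter, general functional -/
def DD (Q : Finset Edg → Vtx → ℕ) (t : ℝ) (n : ℕ) (F : Finset Edg) : Prop :=
  ∃ v, Largest n F v ∧ t * rate n < (Q F v : ℝ)

/-- compatible functionals -/
def Comp (Q : Finset Edg → Vtx → ℕ) : Prop :=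
  ∀ (k R n : ℕ) (F : Finset Edg) (v : Vtx), Good k R n F → Largest n F v → Q (F \ Bo k) v = Q F v

theorem DD_cut {Q : Finset Edg → Vtx → ℕ} (hQ : Comp Q) {t : ℝ} {k R n : ℕ} {F : Finset Edg}
    (hg : Good k R n F) : DD Q t n F ↔ DD Q t n (F \ Bo k) := by
  constructor
  · rintro ⟨v, hv, h⟩
    refine ⟨v, (largest_cut hg hv).1, ?_⟩
    rwa [hQ k R n F v hg hv]
  · rintro ⟨v, hv, h⟩
    have hv' := largest_uncut hg hv
    refine ⟨v, hv', ?_⟩
    rwa [← hQ k R n F v hg hv']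

theorem DD_zo {Q : Finset Edg → Vtx → ℕ} (hQ : Comp Q) (t : ℝ) :
    (∀ᵐ ω ∂crit, ∃ᶠ n : ℕ in atTop, DD Q t n (op (Bo n) ω)) ∨
      ∀ᵐ ω ∂crit, ∀ᶠ n : ℕ in atTop, ¬ DD Q t n (op (Bo n) ω) := by
  refine zero_one (DD Q t) fun k => ?_
  rcases Nat.eq_zero_or_pos k with hk | hk
  · filter_upwards with ω
    filter_upwards with n
    have : RE 0 (k:ℤ) 0 (k:ℤ) = ∅ := by
      rw [hk]
      ext ⟨x, y, t⟩
      cases t
      · rw [mem_RE_false]
        simp only [Finset.notMem_empty, iff_false]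
        omega
      · rw [mem_RE_true]
        simp only [Finset.notMem_empty, iff_false]
        omega
    rw [this, Finset.sdiff_empty]
  · filter_upwards [good_ev hk] with ω hω
    filter_upwards [hω] with n hn
    obtain ⟨R, hR⟩ := hn
    rw [op_sdiff']
    exact DD_cut hQ hR

open Classical in
/-- the largest value of `Q` for the clusters of largest diameter -/
noncomputable def longest (Q : Finset Edg → Vtx → ℕ) (n : ℕ) (F : Finset Edg) : ℕ :=
  (box n).sup (fun v => if Largest n F v then Q F v else 0)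

theorem lt_longest {Q : Finset Edg → Vtx → ℕ} {n : ℕ} {F : Finset Edg} {x : ℝ} (hx : 0 ≤ x) :
    x < (longest Q n F : ℝ) ↔ ∃ v, Largest n F v ∧ x < (Q F v : ℝ) := by
  classical
  constructor
  · intro h
    obtain ⟨v, hv, h2⟩ := Finset.exists_mem_eq_sup (box n) ⟨(0, 0), by
      rw [mem_box]; unfold inR; simp⟩ (fun v => if Largest n F v then Q F v else 0)
    unfold longest at h
    rw [h2] at h
    by_cases hL : Largest n F v
    · rw [if_pos hL] at h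
      exact ⟨v, hL, h⟩
    · rw [if_neg hL] at h
      push_cast at h
      linarith
  · rintro ⟨v, hv, h⟩
    refine h.trans_le ?_
    unfold longest
    have h2 := Finset.le_sup (f := fun v => if Largest n F v then Q F v else 0) hv.1
    simp only [if_pos hv] at h2
    exact_mod_cast h2

theorem rate_pos : ∀ᶠ n : ℕ in atTop, 0 < rate n := by
  have hln : Tendsto (fun n : ℕ => Real.log (n:ℝ)) atTop atTop :=
    Real.tendsto_log_atTop.comp tendsto_natCast_atTop_atTop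
  filter_upwards [(Real.tendsto_log_atTop.comp hln).eventually_gt_atTop 0,
    eventually_ge_atTop 1] with n h1 h2
  have : (0:ℝ) < n := by exact_mod_cast h2
  unfold rate
  simp only [Function.comp_apply] at h1
  positivity

/-- The upper limit is constant. -/
theorem const {Q : Finset Edg → Vtx → ℕ} (hQ : Comp Q) {c C : ℝ} (hc : 0 < c)
    (hlow : ∀ᵐ ω ∂crit, ∃ᶠ n : ℕ in atTop, ∀ v, Largest n (op (Bo n) ω) v →
      c * rate n ≤ (Q (op (Bo n) ω) v : ℝ))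
    (hup : ∀ᵐ ω ∂crit, ∀ᶠ n : ℕ in atTop, ∀ v, Largest n (op (Bo n) ω) v →
      (Q (op (Bo n) ω) v : ℝ) ≤ C * rate n) :
    ∃ L : ℝ, c ≤ L ∧ L ≤ C ∧ ∀ᵐ ω ∂crit,
      limsup (fun n : ℕ => (longest Q n (op (Bo n) ω) : ℝ) / rate n) atTop = L := by
  obtain ⟨T, hT⟩ : ∃ T : Set ℝ, T = {t | ∀ᵐ ω ∂crit, ∃ᶠ n : ℕ in atTop,
    DD Q t n (op (Bo n) ω)} := ⟨_, rfl⟩
  have h1 : ∀ t < c, t ∈ T := by
    intro t ht
    rw [hT]
    show ∀ᵐ ω ∂crit, ∃ᶠ n : ℕ in atTop, DD Q t n (op (Bo n) ω)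
    filter_upwards [hlow] with ω hω
    refine (hω.and_eventually rate_pos).mono ?_
    rintro n ⟨h2, h3⟩
    obtain ⟨v, hv⟩ := ex_largest n (op (Bo n) ω)
    exact ⟨v, hv, (mul_lt_mul_of_pos_right ht h3).trans_le (h2 v hv)⟩
  have h2 : ∀ t ∈ T, t < C := by
    intro t ht
    by_contra hcon
    push Not at hcon
    rw [hT] at ht
    have ht' : ∀ᵐ ω ∂crit, ∃ᶠ n : ℕ in atTop, DD Q t n (op (Bo n) ω) := ht
    have h3 : ∀ᵐ ω ∂crit, False := by
      filter_upwards [ht', hup] with ω h4 h5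
      obtain ⟨n, ⟨h6, h7⟩, h8⟩ := ((h4.and_eventually h5).and_eventually rate_pos).exists
      obtain ⟨v, hv, hlt⟩ := h6
      have := h7 v hv
      have := mul_le_mul_of_nonneg_right hcon h8.le
      linarith
    obtain ⟨ω, hω⟩ := h3.exists
    exact hω
  have hne : T.Nonempty := ⟨c / 2, h1 _ (by linarith)⟩
  have hbd : BddAbove T := ⟨C, fun t ht => (h2 t ht).le⟩
  have hcL : c ≤ sSup T := by
    refine le_of_forall_lt fun t ht => ?_
    obtain ⟨s, hs1, hs2⟩ := exists_between ht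
    exact hs1.trans_le (le_csSup hbd (h1 s hs2))
  have hLC : sSup T ≤ C := csSup_le hne fun t ht => (h2 t ht).le
  refine ⟨sSup T, hcL, hLC, ?_⟩
  have hT1 : ∀ q : ℚ, (q : ℝ) < sSup T → ∀ᵐ ω ∂crit, ∃ᶠ n : ℕ in atTop,
      DD Q q n (op (Bo n) ω) := by
    intro q hq
    obtain ⟨t, ht, hqt⟩ := exists_lt_of_lt_csSup hne hq
    rw [hT] at ht
    have ht' : ∀ᵐ ω ∂crit, ∃ᶠ n : ℕ in atTop, DD Q t n (op (Bo n) ω) := ht
    filter_upwards [ht'] with ω hω
    refine (hω.and_eventually rate_pos).mono ?_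
    rintro n ⟨⟨v, hv, hlt⟩, h3⟩
    exact ⟨v, hv, (mul_lt_mul_of_pos_right hqt h3).trans hlt⟩
  have hT2 : ∀ q : ℚ, sSup T < (q : ℝ) → ∀ᵐ ω ∂crit, ∀ᶠ n : ℕ in atTop,
      ¬ DD Q q n (op (Bo n) ω) := by
    intro q hq
    rcases DD_zo hQ (q : ℝ) with h | h
    · exfalso
      have : (q : ℝ) ∈ T := by rw [hT]; exact h
      exact absurd (le_csSup hbd this) (not_le.2 hq)
    · exact h
  have hall : ∀ᵐ ω ∂crit, ∀ q : ℚ, ((q : ℝ) < sSup T → ∃ᶠ n : ℕ in atTop,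
      DD Q q n (op (Bo n) ω)) ∧ (sSup T < (q : ℝ) → ∀ᶠ n : ℕ in atTop,
      ¬ DD Q q n (op (Bo n) ω)) := by
    rw [ae_all_iff]
    intro q
    rcases lt_trichotomy (q : ℝ) (sSup T) with h | h | h
    · filter_upwards [hT1 q h] with ω hω
      exact ⟨fun _ => hω, fun h' => absurd h' (lt_asymm h)⟩
    · filter_upwards with ω
      exact ⟨fun h' => absurd h' (by rw [h]; exact lt_irrefl _),
        fun h' => absurd h' (by rw [h]; exact lt_irrefl _)⟩
    · filter_upwards [hT2 q h] with ω hω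
      exact ⟨fun h' => absurd h' (lt_asymm h), fun _ => hω⟩
  filter_upwards [hall] with ω hω
  have hL0 : 0 < sSup T := hc.trans_le hcL
  have hge : ∀ᶠ n : ℕ in atTop, 0 ≤ (longest Q n (op (Bo n) ω) : ℝ) / rate n := by
    filter_upwards [rate_pos] with n hn
    positivity
  have hbdd : ∀ q : ℚ, sSup T < (q : ℝ) → ∀ᶠ n : ℕ in atTop,
      (longest Q n (op (Bo n) ω) : ℝ) / rate n ≤ q := by
    intro q hq
    filter_upwards [(hω q).2 hq, rate_pos] with n h3 h4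
    by_contra hcon
    push Not at hcon
    rw [lt_div_iff₀ h4] at hcon
    have hq0 : 0 ≤ (q:ℝ) * rate n := mul_nonneg (hL0.trans hq).le h4.le
    exact h3 ((lt_longest hq0).1 hcon)
  have hcob : IsCoboundedUnder (· ≤ ·) atTop
      (fun n : ℕ => (longest Q n (op (Bo n) ω) : ℝ) / rate n) :=
    IsBoundedUnder.isCoboundedUnder_le ⟨0, by
      rw [eventually_map]
      exact hge⟩
  refine le_antisymm ?_ ?_
  · refine le_of_forall_gt fun x hx => ?_
    obtain ⟨q, hq1, hq2⟩ := exists_rat_btwn hx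
    exact (limsup_le_of_le hcob (hbdd q hq1)).trans_lt hq2
  · refine le_of_forall_lt fun x hx => ?_
    obtain ⟨q, hq1, hq2⟩ := exists_rat_btwn (max_lt hx hL0)
    have hq0 : 0 ≤ (q:ℝ) := (le_max_right x 0).trans hq1.le
    refine ((le_max_left x 0).trans_lt hq1).trans_le ?_
    obtain ⟨q', hq'⟩ := exists_rat_gt (sSup T)
    refine le_limsup_of_frequently_le ?_ ⟨q', by
      rw [eventually_map]
      exact hbdd q' hq'⟩
    refine (((hω q).1 hq2).and_eventually rate_pos).mono ?_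
    rintro n ⟨h3, h4⟩
    rw [le_div_iff₀ h4]
    exact ((lt_longest (mul_nonneg hq0 h4.le)).2 h3).le

end Pool.Agent.N956.PL
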