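import Pool.Agent.H342R2.Per.Plain
import Pool.Agent.H12R2.Sep.Defs

/-!
Closing the edges of a small box does not change the largest cluster, if this small box is
separated from the circle of radius `R` and some cluster is larger than `R`.
-/

set_option autoImplicit false

namespace Pool.Agent.N956.PL

open H974 H342P H342P.Plain

/-- closing the edges in `D` does not matter, if the cluster does not visit their endpoints -/
theorem reach_sdiff {F D : Set Edg} {B : Set Vtx} (hD : ∀ e ∈ D, src e ∈ B ∧ tgt e ∈ B)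
    {u w : Vtx} (h : ∀ z ∈ B, ¬ Reach (F \ D) u z) (hr : Reach F u w) : Reach (F \ D) u w := by
  induction hr with
  | refl => exact Reach.refl _ _
  | tail _ hs ih =>
    obtain ⟨e, he, hc⟩ := hs
    refine ih.trans (Adj.reach ⟨e, ⟨he, fun heD => ?_⟩, hc⟩)
    rcases hc with ⟨h1, h2⟩ | ⟨h1, h2⟩
    · exact h _ (hD e heD).1 (h1 ▸ ih)
    · exact h _ (hD e heD).2 (h2 ▸ ih)

/-- the vertices of the small box -/
def Bx (k : ℕ) : Set Vtx := {z | inR 0 k 0 k z}

theorem Bx_D (k : ℕ) : ∀ e ∈ (↑(RE 0 k 0 k) : Set Edg), src e ∈ Bx k ∧ tgt e ∈ Bx k := by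
  rintro ⟨x, y, t⟩ he
  unfold Bx inR
  cases t
  · rw [Finset.mem_coe, mem_RE_false] at he
    simp only [src_mk, tgt_false, Set.mem_ofPred_eq]
    omega
  · rw [Finset.mem_coe, mem_RE_true] at he
    simp only [src_mk, tgt_true, Set.mem_ofPred_eq]
    omega

/-- The small box `{0, …, k}²` is separated from distance `R`, and there is a large cluster. -/
def Good (k R n : ℕ) (F : Finset Edg) : Prop :=
  ¬ H12S.Crs 0 0 k R (↑F) ∧ Big n R (↑F)

/-- clusters which touch the small box are small -/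
theorem small {k R : ℕ} {F : Set Edg} (h : ¬ H12S.Crs 0 0 k R F) {z a b : Vtx} (hz : z ∈ Bx k)
    (ha : Reach F z a) (hb : Reach F z b) : dsq a b < 8 * (R:ℤ) ^ 2 := by
  have hz' : inR (0 - (k:ℤ)) (0 + k) (0 - k) (0 + k) z := by
    unfold Bx inR at hz
    rw [Set.mem_ofPred_eq] at hz
    unfold inR
    omega
  have key : ∀ w, Reach F z w → ¬ FarF (0, 0) R w := by
    intro w hw
    unfold FarF
    rw [not_not]
    by_contra hc
    refine h ⟨z, w, hz', ?_, hw⟩
    unfold inF at hc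
    simp only at hc
    omega
  exact dsq_lt (key a ha) (key b hb)

theorem cluster_coe (F : Finset Edg) (v w : Vtx) : w ∈ cluster F v ↔ Reach (↑F : Set Edg) v w :=
  mem_cluster F v w

theorem mem_box {n : ℕ} {v : Vtx} : v ∈ box n ↔ inR 0 n 0 n v := by
  unfold box
  rw [Finset.mem_product, Finset.mem_Icc, Finset.mem_Icc]
  unfold inR
  rfl

/-- If the cluster of `v` in `F \ D` does not touch the small box, then nothing changes. -/
theorem same {k : ℕ} {F : Finset Edg} {v : Vtx}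
    (h : ∀ z ∈ Bx k, ¬ Reach (↑(F \ RE 0 k 0 k) : Set Edg) v z) :
    cluster (F \ RE 0 k 0 k) v = cluster F v ∧
      (perimeterEdges (F \ RE 0 k 0 k) v = perimeterEdges F v ∧
      perimeter (F \ RE 0 k 0 k) v = perimeter F v) := by
  classical
  have h1 : cluster (F \ RE 0 k 0 k) v = cluster F v := by
    ext w
    rw [cluster_coe, cluster_coe]
    constructor
    · exact Reach.mono (by simp)
    · intro hr
      rw [Finset.coe_sdiff] at h ⊢
      exact reach_sdiff (Bx_D k) h hr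
  have h2 : clusterEdges (F \ RE 0 k 0 k) v = clusterEdges F v := by
    ext e
    unfold clusterEdges
    rw [h1]
    simp only [Set.mem_ofPred_eq, Finset.mem_sdiff]
    constructor
    · rintro ⟨⟨h3, -⟩, h4⟩
      exact ⟨h3, h4⟩
    · rintro ⟨h3, h4⟩
      refine ⟨⟨h3, fun h5 => ?_⟩, h4⟩
      rw [← h1, cluster_coe] at h4
      exact h _ (Bx_D k e (Finset.mem_coe.2 h5)).1 h4
  refine ⟨h1, ?_⟩
  have h3 : ∀ f, Plain.Outer (F \ RE 0 k 0 k) v f ↔ Plain.Outer F v f := by
    intro f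
    unfold Plain.Outer
    rw [h2]
  constructor
  swap
  · unfold perimeter
    simp only [h2, h3]
    refine Finset.sum_subset Finset.sdiff_subset fun e _ he2 => ?_
    rw [if_neg]
    intro h4
    rw [← h2] at h4
    exact he2 h4.1
  unfold perimeterEdges
  congr 1
  ext e
  simp only [Finset.mem_filter, h2, h3]
  constructor
  · rintro ⟨-, h4, h5⟩
    exact ⟨h4.1, h4, h5⟩
  · rintro ⟨-, h4, h5⟩
    refine ⟨?_, h4, h5⟩
    rw [← h2] at h4
    exact h4.1

/-- the largest clusters before and after closing the edges of the small box -/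
theorem largest_cut {k R n : ℕ} {F : Finset Edg} (hg : Good k R n F) {v : Vtx}
    (hv : Largest n F v) : Largest n (F \ RE 0 k 0 k) v ∧
      (perimeterEdges (F \ RE 0 k 0 k) v = perimeterEdges F v ∧
      perimeter (F \ RE 0 k 0 k) v = perimeter F v) := by
  obtain ⟨hC, c, d, hc, hd, hcd, h8⟩ := hg
  obtain ⟨hvb, a, ha, b, hb, hmax⟩ := hv
  rw [cluster_coe] at ha hb
  have h1 := h8.trans (hmax c (mem_box.2 hc) d (mem_box.2 hd) ((cluster_coe _ _ _).2 hcd))
  have hmono : ∀ x y, Reach (↑(F \ RE 0 k 0 k) : Set Edg) x y → Reach (↑F : Set Edg) x y :=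
    fun x y => Reach.mono (by simp)
  have hno : ∀ z ∈ Bx k, ¬ Reach (↑(F \ RE 0 k 0 k) : Set Edg) v z := by
    intro z hz hr
    have hr' := hmono _ _ hr
    exact absurd (small hC hz (hr'.symm.trans ha) (hr'.symm.trans hb)) (not_lt.2 h1)
  obtain ⟨e1, e2⟩ := same hno
  refine ⟨⟨hvb, a, ?_, b, ?_, ?_⟩, e2⟩
  · rw [e1, cluster_coe]; exact ha
  · rw [e1, cluster_coe]; exact hb
  · intro c' hc' d' hd' hcd'
    rw [cluster_coe] at hcd'
    exact hmax c' hc' d' hd' ((cluster_coe _ _ _).2 (hmono _ _ hcd'))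

theorem largest_uncut {k R n : ℕ} {F : Finset Edg} (hg : Good k R n F) {v : Vtx}
    (hv : Largest n (F \ RE 0 k 0 k) v) : Largest n F v := by
  obtain ⟨hC, c, d, hc, hd, hcd, h8⟩ := hg
  obtain ⟨hvb, a, ha, b, hb, hmax⟩ := hv
  rw [cluster_coe] at ha hb
  have hmono : ∀ x y, Reach (↑(F \ RE 0 k 0 k) : Set Edg) x y → Reach (↑F : Set Edg) x y :=
    fun x y => Reach.mono (by simp)
  have hcut : ∀ x y, 8 * (R:ℤ) ^ 2 ≤ dsq x y → Reach (↑F : Set Edg) x y →
      Reach (↑(F \ RE 0 k 0 k) : Set Edg) x y := by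
    intro x y hxy hr
    have hno : ∀ z ∈ Bx k, ¬ Reach (↑(F \ RE 0 k 0 k) : Set Edg) x z := by
      intro z hz hr2
      have hr' := hmono _ _ hr2
      exact absurd (small hC hz hr'.symm (hr'.symm.trans hr)) (not_lt.2 hxy)
    rw [Finset.coe_sdiff] at hno ⊢
    exact reach_sdiff (Bx_D k) hno hr
  have h1 : 8 * (R:ℤ) ^ 2 ≤ dsq a b := h8.trans (hmax c (mem_box.2 hc) d (mem_box.2 hd)
    ((cluster_coe _ _ _).2 (hcut c d h8 hcd)))
  refine ⟨hvb, a, (cluster_coe _ _ _).2 (hmono _ _ ha), b, (cluster_coe _ _ _).2 (hmono _ _ hb),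
    ?_⟩
  intro c' hc' d' hd' hcd'
  rw [cluster_coe] at hcd'
  by_cases h2 : 8 * (R:ℤ) ^ 2 ≤ dsq c' d'
  · exact hmax c' hc' d' hd' ((cluster_coe _ _ _).2 (hcut c' d' h2 hcd'))
  · exact (not_le.1 h2).le.trans h1

end Pool.Agent.N956.PL
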