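import Pool.Agent.H342R2.Per.Plain
import Pool.Agent.TH992.T.Chern
import Mathlib.Probability.ProductMeasure
import Mathlib.Probability.Distributions.Bernoulli
import Mathlib.Probability.BorelCantelli

/-!
Critical bond percolation on the whole lattice: events of finitely many edges, Borel-Cantelli.
-/

set_option autoImplicit false

namespace Pool.Agent.N956.PL

open MeasureTheory ProbabilityTheory H974 Filter Topology
open scoped ENNReal

/-- Critical bond percolation on `ℤ²`: all edges are open (`true`) or closed (`false`) with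
probability `1/2`, independently. -/
noncomputable def crit : Measure (Edg → Bool) :=
  Measure.infinitePi (fun _ => bernoulliMeasure true false ⟨1/2, by norm_num, by norm_num⟩)

instance inst_crit : IsProbabilityMeasure crit := by unfold crit; infer_instance

/-- The open edges in `S`. -/
def op (S : Finset Edg) (ω : Edg → Bool) : Finset Edg := S.filter (fun e => ω e = true)

theorem op_sub (S : Finset Edg) (ω : Edg → Bool) : op S ω ⊆ S := Finset.filter_subset _ _

theorem op_inter {S T : Finset Edg} (h : T ⊆ S) (ω : Edg → Bool) : op S ω ∩ T = op T ω := by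
  ext e
  simp only [op, Finset.mem_inter, Finset.mem_filter]
  constructor
  · rintro ⟨⟨-, h1⟩, h2⟩
    exact ⟨h2, h1⟩
  · rintro ⟨h1, h2⟩
    exact ⟨⟨h h1, h2⟩, h1⟩

theorem ber_apply (b : Bool) :
    bernoulliMeasure true false ⟨1/2, by norm_num, by norm_num⟩ {b} = ENNReal.ofReal (1/2) := by
  cases b
  · rw [bernoulliMeasure_apply_of_notMem_of_mem _ MeasurableSet.of_discrete (by simp) (by simp)]
    rw [← ENNReal.ofReal_coe_nnreal]
    congr 1
    simp [unitInterval.coe_toNNReal]
    norm_num
  · rw [bernoulliMeasure_apply_of_mem_of_notMem _ MeasurableSet.of_discrete (by simp) (by simp)]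
    rw [← ENNReal.ofReal_coe_nnreal]
    congr 1

theorem cyl_set {S F : Finset Edg} (hF : F ⊆ S) :
    {ω : Edg → Bool | op S ω = F} = Set.pi (↑S) (fun e => {decide (e ∈ F)}) := by
  ext ω
  simp only [Set.mem_ofPred_eq, Set.mem_pi, Finset.mem_coe, Set.mem_singleton_iff, op]
  constructor
  · intro h e he
    rw [← h]
    simp [he]
  · intro h
    ext e
    rw [Finset.mem_filter]
    constructor
    · rintro ⟨h1, h2⟩
      have := h e h1
      rw [h2] at this
      simpa using this.symm
    · intro h1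
      have := h e (hF h1)
      exact ⟨hF h1, by rw [this]; simpa using h1⟩

theorem cyl {S F : Finset Edg} (hF : F ⊆ S) :
    crit {ω : Edg → Bool | op S ω = F} = ENNReal.ofReal ((1/2) ^ S.card) := by
  rw [cyl_set hF]
  unfold crit
  rw [Measure.infinitePi_pi _ (fun i _ => MeasurableSet.of_discrete)]
  rw [Finset.prod_congr rfl (fun e _ => ber_apply (decide (e ∈ F))), Finset.prod_const,
    ENNReal.ofReal_pow (by norm_num)]

theorem meas_cyl {S F : Finset Edg} (hF : F ⊆ S) : MeasurableSet {ω : Edg → Bool | op S ω = F} := by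
  rw [cyl_set hF]
  exact MeasurableSet.pi S.countable_toSet fun _ _ => MeasurableSet.of_discrete

open Classical in
theorem op_union (S : Finset Edg) (A : Finset Edg → Prop) :
    {ω : Edg → Bool | A (op S ω)} = ⋃ F ∈ S.powerset.filter A, {ω : Edg → Bool | op S ω = F} := by
  ext ω
  simp only [Set.mem_ofPred_eq, Set.mem_iUnion, Finset.mem_filter, Finset.mem_powerset]
  constructor
  · intro h
    exact ⟨op S ω, ⟨op_sub S ω, h⟩, rfl⟩
  · rintro ⟨F, ⟨-, h⟩, h2⟩
    rw [h2]
    exact h

theorem meas_op (S : Finset Edg) (A : Finset Edg → Prop) :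
    MeasurableSet {ω : Edg → Bool | A (op S ω)} := by
  classical
  rw [op_union]
  refine Finset.measurableSet_biUnion _ fun F hF => meas_cyl ?_
  exact Finset.mem_powerset.1 (Finset.mem_filter.1 hF).1

theorem crit_op (S : Finset Edg) (A : Finset Edg → Prop) :
    crit {ω : Edg → Bool | A (op S ω)} = ENNReal.ofReal (Pr (fun _ => (1/2:ℝ)) S A) := by
  classical
  rw [op_union, measure_biUnion_finset]
  · rw [Finset.sum_congr rfl (fun F hF => cyl (Finset.mem_powerset.1 (Finset.mem_filter.1 hF).1)),
      Finset.sum_const, nsmul_eq_mul, ← ENNReal.ofReal_natCast,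
      ← ENNReal.ofReal_mul (Nat.cast_nonneg _)]
    congr 1
    unfold Pr Ex
    have h1 : ∀ F ∈ S.powerset, (∏ _e ∈ F, (1/2:ℝ)) * (∏ _e ∈ S \ F, (1 - (1/2:ℝ))) *
        ind (A F) = (1/2:ℝ) ^ S.card * ind (A F) := by
      intro F hF
      rw [Finset.mem_powerset] at hF
      rw [Finset.prod_const, Finset.prod_const]
      have h2 : (1:ℝ) - 1/2 = 1/2 := by norm_num
      rw [h2, ← pow_add, Finset.card_sdiff_of_subset hF]
      have h3 := Finset.card_le_card hF
      congr 2
      omega
    rw [Finset.sum_congr rfl h1, ← Finset.mul_sum]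
    have h4 : ∑ F ∈ S.powerset, ind (A F) = ((S.powerset.filter A).card : ℝ) := by
      rw [Finset.card_filter]
      push_cast
      refine Finset.sum_congr rfl fun F _ => ?_
      by_cases h : A F
      · rw [ind_of h, if_pos h]
      · rw [ind_not_of h, if_neg h]
    rw [h4, mul_comm]
  · intro F hF G hG hFG
    rw [Function.onFun, Set.disjoint_left]
    intro ω h1 h2
    exact hFG (h1.symm.trans h2)
  · intro F hF
    exact meas_cyl (Finset.mem_powerset.1 (Finset.mem_filter.1 hF).1)

/-- Borel-Cantelli for events of finitely many edges. -/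
theorem bc1 (S : ℕ → Finset Edg) (A : ℕ → Finset Edg → Prop)
    (hs : Summable (fun k => Pr (fun _ => (1/2:ℝ)) (S k) (A k))) :
    ∀ᵐ ω ∂crit, ∀ᶠ k in atTop, ¬ A k (op (S k) ω) := by
  have hok : Ok (fun _ : Edg => (1/2:ℝ)) := fun _ => ⟨by norm_num, by norm_num⟩
  have h := measure_setOfPred_frequently_eq_zero (μ := crit) (p := fun k ω => A k (op (S k) ω)) (by
    simp_rw [crit_op]
    rw [← ENNReal.ofReal_tsum_of_nonneg (fun k => Pr_nonneg hok _ _) hs]
    exact ENNReal.ofReal_ne_top)
  rw [ae_iff]
  refine measure_mono_null ?_ h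
  intro ω hω
  exact Filter.not_eventually.1 hω |>.mono fun k hk => not_not.1 hk

/-- events of disjoint finite sets of edges are independent -/
theorem ind_prod (T : ℕ → Finset Edg) (hT : ∀ i j, i ≠ j → Disjoint (T i) (T j)) (s : Finset ℕ)
    (A : ℕ → Finset Edg → Prop) :
    crit (⋂ i ∈ s, {ω : Edg → Bool | A i (op (T i) ω)}) =
      ∏ i ∈ s, crit {ω : Edg → Bool | A i (op (T i) ω)} := by
  classical
  have hok : Ok (fun _ : Edg => (1/2:ℝ)) := fun _ => ⟨by norm_num, by norm_num⟩
  obtain ⟨U, hU⟩ : ∃ U : Finset Edg, U = s.biUnion T := ⟨_, rfl⟩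
  have hTU : ∀ i ∈ s, T i ⊆ U := fun i hi => by
    rw [hU]
    exact Finset.subset_biUnion_of_mem T hi
  have e1 : (⋂ i ∈ s, {ω : Edg → Bool | A i (op (T i) ω)}) =
      {ω : Edg → Bool | ∀ i ∈ s, A i (op U ω ∩ T i)} := by
    ext ω
    simp only [Set.mem_iInter, Set.mem_ofPred_eq]
    refine forall_congr' fun i => forall_congr' fun hi => ?_
    rw [op_inter (hTU i hi)]
  rw [e1, crit_op U (fun F => ∀ i ∈ s, A i (F ∩ T i))]
  have e2 : ∀ i ∈ s, crit {ω : Edg → Bool | A i (op (T i) ω)} =
      ENNReal.ofReal (Pr (fun _ => (1/2:ℝ)) U (fun F => A i (F ∩ T i))) := by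
    intro i hi
    rw [← crit_op U (fun F => A i (F ∩ T i))]
    congr 1
    ext ω
    simp only [Set.mem_ofPred_eq]
    rw [op_inter (hTU i hi)]
  rw [Finset.prod_congr rfl e2, ← ENNReal.ofReal_prod_of_nonneg
    (fun i _ => Pr_nonneg hok _ _)]
  congr 1
  have h1 := TH992.T.Ex_prod_indep (p := fun _ : Edg => (1/2:ℝ)) (S := U) s T hTU
    (fun i _ j _ hij => hT i j hij) (fun i F => ind (A i (F ∩ T i))) (fun i _ F _ => by
      rw [Finset.inter_assoc, Finset.inter_self])
  unfold Pr
  rw [← h1]
  refine Ex_congr fun F _ => ?_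
  by_cases h : ∀ i ∈ s, A i (F ∩ T i)
  · rw [ind_of h]
    exact (Finset.prod_eq_one fun i hi => ind_of (h i hi)).symm
  · rw [ind_not_of h]
    push Not at h
    obtain ⟨i, hi, hA⟩ := h
    exact (Finset.prod_eq_zero hi (ind_not_of hA)).symm

/-- The second lemma of Borel and Cantelli for events of disjoint finite sets of edges. -/
theorem bc2 (T : ℕ → Finset Edg) (hT : ∀ i j, i ≠ j → Disjoint (T i) (T j))
    (A : ℕ → Finset Edg → Prop)
    (hs : ¬ Summable (fun k => Pr (fun _ => (1/2:ℝ)) (T k) (A k))) :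
    ∀ᵐ ω ∂crit, ∃ᶠ k in atTop, A k (op (T k) ω) := by
  classical
  have hok : Ok (fun _ : Edg => (1/2:ℝ)) := fun _ => ⟨by norm_num, by norm_num⟩
  have hm : ∀ k, MeasurableSet {ω : Edg → Bool | A k (op (T k) ω)} := fun k => meas_op _ _
  have hind : iIndepSet (fun k => {ω : Edg → Bool | A k (op (T k) ω)}) crit := by
    rw [iIndepSet_iff_meas_biInter hm]
    intro s
    exact ind_prod T hT s A
  have hsum : (∑' k, crit {ω : Edg → Bool | A k (op (T k) ω)}) = ∞ := by
    by_contra hne
    apply hs
    simp_rw [crit_op] at hne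
    have := ENNReal.summable_toReal hne
    refine this.congr fun k => ?_
    rw [ENNReal.toReal_ofReal (Pr_nonneg hok _ _)]
  have h := measure_limsup_eq_one hm hind hsum
  have h2 : crit (limsup (fun k => {ω : Edg → Bool | A k (op (T k) ω)}) atTop)ᶜ = 0 := by
    rw [prob_compl_eq_zero_iff₀]
    · exact h
    · exact (MeasurableSet.measurableSet_limsup hm).nullMeasurableSet
  rw [ae_iff]
  refine measure_mono_null ?_ h2
  intro ω hω
  rw [Set.mem_compl_iff, mem_limsup_iff_frequently_mem]
  exact hω

end Pool.Agent.N956.PL
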