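import Pool.Agent.N956.PL.Inf
import Pool.Agent.N956.PL.Cut
import Pool.Agent.H985R3.TA.BLoc
import Pool.Agent.TH494.PT.UpB

/-!
The lower half of the law of the iterated logarithm for the perimeter of the largest cluster.
-/

set_option autoImplicit false

namespace Pool.Agent.N956.PL

open H974 H342P H342P.Plain MeasureTheory Filter Topology

/-- the probability for `p = 1/2` -/
noncomputable abbrev P2 (S : Finset Edg) (A : Finset Edg → Prop) : ℝ := Pr (fun _ => (1/2:ℝ)) S A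

theorem ok2 : Ok (fun _ : Edg => (1/2:ℝ)) := fun _ => ⟨by norm_num, by norm_num⟩

/-- the edges of the box `{0, …, n}²` -/
noncomputable abbrev Bo (n : ℕ) : Finset Edg := RE 0 n 0 n

/-- the scales -/
def Nj (j : ℕ) : ℕ := 2 ^ ((j + 1) ^ 2)

/-- the intermediate scales -/
def Rj (j : ℕ) : ℕ := 2 ^ ((j + 1) ^ 2 + (j + 1))

/-- the edges between two scales -/
noncomputable def Tj (j : ℕ) : Finset Edg := Bo (Nj (j + 1)) \ Bo (Nj j)

theorem Bo_mono {a b : ℕ} (h : a ≤ b) : Bo a ⊆ Bo b := by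
  rintro ⟨x, y, t⟩ he
  have : (a:ℤ) ≤ b := by exact_mod_cast h
  cases t
  · rw [mem_RE_false] at he ⊢; omega
  · rw [mem_RE_true] at he ⊢; omega

theorem Nj_mono {i j : ℕ} (h : i ≤ j) : Nj i ≤ Nj j := by
  unfold Nj
  exact Nat.pow_le_pow_right (by norm_num) (Nat.pow_le_pow_left (by omega) 2)

theorem Nj_ge (j : ℕ) : j ≤ Nj j := by
  unfold Nj
  have h1 : j ≤ (j + 1) ^ 2 := by nlinarith
  exact h1.trans (Nat.lt_two_pow_self).le

theorem Tj_disj (i j : ℕ) (hij : i ≠ j) : Disjoint (Tj i) (Tj j) := by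
  rcases Nat.lt_or_gt_of_ne hij with h | h
  · rw [Finset.disjoint_left]
    intro e h1 h2
    unfold Tj at h1 h2
    rw [Finset.mem_sdiff] at h1 h2
    exact h2.2 (Bo_mono (Nj_mono (by omega)) h1.1)
  · rw [Finset.disjoint_left]
    intro e h1 h2
    unfold Tj at h1 h2
    rw [Finset.mem_sdiff] at h1 h2
    exact h1.2 (Bo_mono (Nj_mono (by omega)) h2.1)

theorem op_T (j : ℕ) (ω : Edg → Bool) :
    op (Tj j) ω = op (Bo (Nj (j + 1))) ω \ Bo (Nj j) := by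
  ext e
  unfold op Tj
  simp only [Finset.mem_filter, Finset.mem_sdiff]
  tauto

/-- the small box is separated and there is a big cluster with large probability -/
theorem not_good : ∃ C q : ℝ, 0 ≤ q ∧ q < 1 ∧ ∀ j : ℕ,
    P2 (Bo (Nj (j + 1))) (fun F => ¬ Good (Nj j) (Rj j) (Nj (j + 1)) F) ≤
      C * q ^ (j + 1) + (1/2) ^ (j + 1) := by
  obtain ⟨C, c, hC, hc, h⟩ := H985T.BL_arm
  refine ⟨C, (1/2) ^ c, by positivity, Real.rpow_lt_one (by norm_num) (by norm_num) hc,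
    fun j => ?_⟩
  have hN1 : 1 ≤ Nj j := Nat.one_le_two_pow
  have hNR : Nj j ≤ Rj j := Nat.pow_le_pow_right (by norm_num) (by omega)
  have hRN : Rj j = Nj j * 2 ^ (j + 1) := by unfold Rj Nj; rw [pow_add]
  have h1 := (h (Nj j) (Rj j) hN1 hNR 0 0 (Bo (Nj (j + 1)))).1
  have hN0 : (0:ℝ) < (Nj j : ℝ) := by exact_mod_cast hN1
  have e1 : ((Nj j : ℝ) / (Rj j : ℝ)) ^ c = ((1/2 : ℝ) ^ c) ^ (j + 1) := by
    have e2 : (Nj j : ℝ) / (Rj j : ℝ) = (1/2) ^ (j + 1) := by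
      rw [hRN]
      push_cast
      field_simp
      rw [← mul_pow]
      norm_num
    rw [e2, ← Real.rpow_natCast, ← Real.rpow_mul (by norm_num), mul_comm, Real.rpow_mul
      (by norm_num), Real.rpow_natCast]
  rw [e1] at h1
  have hJ : 2 ^ j * (3 * Rj j + 1) ≤ Nj (j + 1) + 1 := by
    have h3 : 1 ≤ Rj j := Nat.one_le_two_pow
    have h4 : 2 ^ j * (3 * Rj j + 1) ≤ 2 ^ j * (4 * Rj j) := Nat.mul_le_mul_left _ (by omega)
    have h5 : 2 ^ j * (4 * Rj j) = Nj (j + 1) := by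
      unfold Rj Nj
      rw [show (4:ℕ) = 2 ^ 2 by norm_num, ← pow_add, ← pow_add]
      congr 1
      ring
    omega
  have h2 := TH494.PT.pr_not_big2 (n := Nj (j + 1)) (L := 3 * Rj j) (J := 2 ^ j)
    (m := (Rj j : ℤ)) (by have : 1 ≤ Rj j := Nat.one_le_two_pow
                          omega) (by positivity) (by push_cast; exact le_refl _)
    (by exact_mod_cast hJ) Nat.one_le_two_pow
  have h3 : ((1:ℝ)/2) ^ (2 ^ j * 2 ^ j) ≤ (1/2) ^ (j + 1) := by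
    refine pow_le_pow_of_le_one (by norm_num) (by norm_num) ?_
    have h4 : j < 2 ^ j := Nat.lt_two_pow_self
    nlinarith
  refine (Pr_mono ok2 (B := fun F => H12S.Crs 0 0 (Nj j) (Rj j) (↑F : Set Edg) ∨
    ¬ Big (Nj (j + 1)) (Rj j) (↑F : Set Edg)) ?_).trans ((Pr_or_le ok2 _ _ _).trans
      (add_le_add h1 (h2.trans h3)))
  intro F _ hF
  unfold Good at hF
  rw [not_and_or, not_not] at hF
  exact hF

theorem not_good_summable : Summable fun j : ℕ =>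
    P2 (Bo (Nj (j + 1))) (fun F => ¬ Good (Nj j) (Rj j) (Nj (j + 1)) F) := by
  obtain ⟨C, q, hq0, hq1, h⟩ := not_good
  refine Summable.of_nonneg_of_le (fun j => Pr_nonneg ok2 _ _) h ?_
  refine Summable.add (Summable.mul_left C ?_) ?_
  · exact (summable_nat_add_iff 1).2 (summable_geometric_of_lt_one hq0 hq1)
  · exact (summable_nat_add_iff 1).2 (summable_geometric_of_lt_one (by norm_num) (by norm_num))

/-- the event of a long perimeter -/
def Ej (c : ℝ) (n : ℕ) (F : Finset Edg) : Prop :=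
  ∀ v, Largest n F v → c * (n:ℝ) ^ (7/4 : ℝ) * (Real.log (Real.log n)) ^ (1/8 : ℝ) ≤
    (perimeterEdges F v : ℝ)

theorem Ej_cut {c : ℝ} {k R n : ℕ} {F : Finset Edg} (hg : Good k R n F) :
    Ej c n F ↔ Ej c n (F \ Bo k) := by
  constructor
  · intro h v hv
    have h1 := largest_uncut hg hv
    rw [(largest_cut hg h1).2.1]
    exact h v h1
  · intro h v hv
    obtain ⟨h1, h2, -⟩ := largest_cut hg hv
    rw [← h2]
    exact h v h1

theorem Ej_local (c : ℝ) (j : ℕ) : P2 (Tj j) (Ej c (Nj (j + 1))) =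
    P2 (Bo (Nj (j + 1))) (fun F => Ej c (Nj (j + 1)) (F \ Bo (Nj j))) := by
  have hsub : Tj j ⊆ Bo (Nj (j + 1)) := Finset.sdiff_subset
  rw [P2, P2, Pr_local hsub (A := fun F => Ej c (Nj (j + 1)) (F \ Bo (Nj j)))]
  · refine Pr_congr fun F hF => ?_
    have : F \ Bo (Nj j) = F := by
      rw [Finset.sdiff_eq_self_iff_disjoint]
      refine Finset.disjoint_of_subset_left hF ?_
      exact Finset.sdiff_disjoint
    rw [this]
  · intro F hF
    have : (F ∩ Tj j) \ Bo (Nj j) = F \ Bo (Nj j) := by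
      ext e
      unfold Tj
      simp only [Finset.mem_inter, Finset.mem_sdiff]
      constructor
      · rintro ⟨⟨h1, -⟩, h2⟩
        exact ⟨h1, h2⟩
      · rintro ⟨h1, h2⟩
        exact ⟨⟨h1, hF h1, h2⟩, h2⟩
    rw [this]

theorem scale_tend : Tendsto (fun j : ℕ => (Nj (j + 1) : ℝ)) atTop atTop := by
  refine tendsto_natCast_atTop_atTop.comp ?_
  refine tendsto_atTop_mono (fun j => (Nat.le_succ j).trans (Nj_ge (j + 1))) tendsto_id

/-- lower bound for the probability of the event in one scale -/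
theorem Ej_prob {c2 K2 : ℝ} (hc2 : 0 < c2) (hK2 : 0 < K2)
    (hlow : ∀ n : ℕ, 1 ≤ n → ∀ x : ℝ, 1 ≤ x → x ≤ c2 * (n : ℝ) ^ (1/4 : ℝ) →
      Real.exp (-(K2 * x ^ 8)) ≤ Plain.prob n (fun F => ∀ v, Plain.Largest n F v →
        x * (n : ℝ) ^ (7/4 : ℝ) ≤ (Plain.perimeterEdges F v : ℝ))) :
    ∃ c : ℝ, 0 < c ∧ ∀ᶠ j : ℕ in atTop,
      ((j:ℝ) + 2) ^ (-(1/2) : ℝ) ≤ P2 (Bo (Nj (j + 1))) (Ej c (Nj (j + 1))) := by
  obtain ⟨c, hc⟩ : ∃ c : ℝ, c = (1 / (4 * K2)) ^ (1/8 : ℝ) := ⟨_, rfl⟩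
  have hc0 : 0 < c := by rw [hc]; positivity
  have hc8 : c ^ 8 = 1 / (4 * K2) := by
    rw [hc, ← Real.rpow_natCast, ← Real.rpow_mul (by positivity)]
    norm_num
  refine ⟨c, hc0, ?_⟩
  have hlog : Tendsto (fun j : ℕ => Real.log (Nj (j + 1) : ℝ)) atTop atTop :=
    Real.tendsto_log_atTop.comp scale_tend
  have hll : Tendsto (fun j : ℕ => Real.log (Real.log (Nj (j + 1) : ℝ))) atTop atTop :=
    Real.tendsto_log_atTop.comp hlog
  have hx : Tendsto (fun j : ℕ => c * (Real.log (Real.log (Nj (j + 1) : ℝ))) ^ (1/8 : ℝ)) atTop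
      atTop := ((tendsto_rpow_atTop (by norm_num)).comp hll).const_mul_atTop hc0
  have hn8 : Tendsto (fun j : ℕ => (Nj (j + 1) : ℝ) ^ (1/8 : ℝ)) atTop atTop :=
    (tendsto_rpow_atTop (by norm_num)).comp scale_tend
  filter_upwards [hx.eventually_ge_atTop 1, hn8.eventually_ge_atTop (8 * c / c2),
    hll.eventually_ge_atTop 1, hlog.eventually_ge_atTop 1] with j h1 h2 h3 h4
  obtain ⟨n, hn⟩ : ∃ n, n = Nj (j + 1) := ⟨_, rfl⟩
  rw [← hn] at h1 h2 h3 h4 ⊢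
  have hn1 : 1 ≤ n := by rw [hn]; exact Nat.one_le_two_pow
  have hn0 : (0:ℝ) < n := by exact_mod_cast hn1
  have hll0 : 0 < Real.log (Real.log (n:ℝ)) := by linarith
  have h5 : c * (Real.log (Real.log (n:ℝ))) ^ (1/8 : ℝ) ≤ c2 * (n:ℝ) ^ (1/4 : ℝ) := by
    have a1 : (Real.log (Real.log (n:ℝ))) ^ (1/8 : ℝ) ≤ Real.log (Real.log (n:ℝ)) := by
      calc (Real.log (Real.log (n:ℝ))) ^ (1/8 : ℝ) ≤ (Real.log (Real.log (n:ℝ))) ^ (1 : ℝ) :=
            Real.rpow_le_rpow_of_exponent_le h3 (by norm_num)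
        _ = _ := Real.rpow_one _
    have a2 : Real.log (Real.log (n:ℝ)) ≤ Real.log (n:ℝ) := by
      have := Real.log_le_sub_one_of_pos (show 0 < Real.log (n:ℝ) by linarith)
      linarith
    have a3 : Real.log (n:ℝ) ≤ (n:ℝ) ^ (1/8 : ℝ) / (1/8) := Real.log_le_rpow_div hn0.le (by norm_num)
    have a4 : (n:ℝ) ^ (1/4 : ℝ) = (n:ℝ) ^ (1/8 : ℝ) * (n:ℝ) ^ (1/8 : ℝ) := by
      rw [← Real.rpow_add hn0]; norm_num
    have a5 : 0 < (n:ℝ) ^ (1/8 : ℝ) := Real.rpow_pos_of_pos hn0 _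
    rw [div_le_iff₀ hc2] at h2
    calc c * (Real.log (Real.log (n:ℝ))) ^ (1/8 : ℝ) ≤ c * ((n:ℝ) ^ (1/8 : ℝ) / (1/8)) :=
          mul_le_mul_of_nonneg_left (a1.trans (a2.trans a3)) hc0.le
      _ = (8 * c) * (n:ℝ) ^ (1/8 : ℝ) := by ring
      _ ≤ ((n:ℝ) ^ (1/8 : ℝ) * c2) * (n:ℝ) ^ (1/8 : ℝ) := mul_le_mul_of_nonneg_right h2 a5.le
      _ = _ := by rw [a4]; ring
  have h6 := hlow n hn1 _ h1 h5
  rw [Plain.prob_eq] at h6
  have e1 : (c * (Real.log (Real.log (n:ℝ))) ^ (1/8 : ℝ)) ^ 8 =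
      1 / (4 * K2) * Real.log (Real.log (n:ℝ)) := by
    rw [mul_pow, hc8, ← Real.rpow_natCast, ← Real.rpow_mul hll0.le]
    norm_num
  rw [e1] at h6
  have h7 : Real.log (Real.log (n:ℝ)) ≤ 2 * Real.log ((j:ℝ) + 2) := by
    have b1 : Real.log (n:ℝ) ≤ ((j:ℝ) + 2) ^ 2 := by
      rw [hn]
      unfold Nj
      push_cast
      rw [Real.log_pow]
      push_cast
      have b2 : Real.log 2 ≤ 1 := by have := Real.log_two_lt_d9; linarith
      calc ((j:ℝ) + 1 + 1) ^ 2 * Real.log 2 ≤ ((j:ℝ) + 1 + 1) ^ 2 * 1 :=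
            mul_le_mul_of_nonneg_left b2 (by positivity)
        _ = _ := by ring
    calc Real.log (Real.log (n:ℝ)) ≤ Real.log (((j:ℝ) + 2) ^ 2) :=
          Real.log_le_log (by linarith) b1
      _ = _ := by rw [Real.log_pow]; norm_num
  have h8 : ((j:ℝ) + 2) ^ (-(1/2) : ℝ) ≤
      Real.exp (-(K2 * (1 / (4 * K2) * Real.log (Real.log (n:ℝ))))) := by
    rw [Real.rpow_def_of_pos (by positivity)]
    refine Real.exp_le_exp.2 ?_
    have b3 : K2 * (1 / (4 * K2) * Real.log (Real.log (n:ℝ))) =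
        1/4 * Real.log (Real.log (n:ℝ)) := by field_simp
    rw [b3]
    linarith
  refine h8.trans (h6.trans (le_of_eq ?_))
  refine Pr_congr fun F _ => ?_
  unfold Ej
  refine forall_congr' fun v => ?_
  have : c * (n:ℝ) ^ (7/4 : ℝ) * (Real.log (Real.log n)) ^ (1/8 : ℝ) =
      c * (Real.log (Real.log (n:ℝ))) ^ (1/8 : ℝ) * (n:ℝ) ^ (7/4 : ℝ) := by ring
  rw [this]

/-- The lower half of the law of the iterated logarithm. -/
theorem low {c2 K2 : ℝ} (hc2 : 0 < c2) (hK2 : 0 < K2)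
    (hlow : ∀ n : ℕ, 1 ≤ n → ∀ x : ℝ, 1 ≤ x → x ≤ c2 * (n : ℝ) ^ (1/4 : ℝ) →
      Real.exp (-(K2 * x ^ 8)) ≤ Plain.prob n (fun F => ∀ v, Plain.Largest n F v →
        x * (n : ℝ) ^ (7/4 : ℝ) ≤ (Plain.perimeterEdges F v : ℝ))) :
    ∃ c : ℝ, 0 < c ∧ ∀ᵐ ω ∂crit, ∃ᶠ n : ℕ in atTop, Ej c n (op (Bo n) ω) := by
  obtain ⟨c, hc, hev⟩ := Ej_prob hc2 hK2 hlow
  refine ⟨c, hc, ?_⟩
  have hns : ¬ Summable (fun j : ℕ => P2 (Tj j) (Ej c (Nj (j + 1)))) := by
    intro hs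
    have h1 := hs.add not_good_summable
    have h2 : Summable (fun j : ℕ => ((j:ℝ) + 2) ^ (-(1/2) : ℝ)) := by
      refine Summable.of_norm_bounded_eventually_nat h1 ?_
      filter_upwards [hev] with j hj
      rw [Real.norm_of_nonneg (by positivity)]
      refine hj.trans ?_
      rw [Ej_local]
      refine (Pr_mono ok2 (B := fun F => Ej c (Nj (j + 1)) (F \ Bo (Nj j)) ∨
        ¬ Good (Nj j) (Rj j) (Nj (j + 1)) F) ?_).trans (Pr_or_le ok2 _ _ _)
      intro F _ hF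
      by_cases hg : Good (Nj j) (Rj j) (Nj (j + 1)) F
      · exact Or.inl ((Ej_cut hg).1 hF)
      · exact Or.inr hg
    have h3 : Summable (fun j : ℕ => (j:ℝ) ^ (-(1/2) : ℝ)) := by
      rw [← summable_nat_add_iff 2]
      refine h2.congr fun j => ?_
      push_cast
      rfl
    rw [Real.summable_nat_rpow] at h3
    norm_num at h3
  filter_upwards [bc2 Tj Tj_disj (fun j => Ej c (Nj (j + 1))) hns,
    bc1 (fun j => Bo (Nj (j + 1))) (fun j F => ¬ Good (Nj j) (Rj j) (Nj (j + 1)) F)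
      not_good_summable] with ω h1 h2
  have h3 : ∃ᶠ j : ℕ in atTop, Ej c (Nj (j + 1)) (op (Bo (Nj (j + 1))) ω) := by
    refine (h1.and_eventually h2).mono ?_
    rintro j ⟨h4, h5⟩
    rw [not_not] at h5
    rw [Ej_cut h5, ← op_T]
    exact h4
  have h4 : Tendsto (fun j : ℕ => Nj (j + 1)) atTop atTop :=
    tendsto_atTop_mono (fun j => (Nat.le_succ j).trans (Nj_ge (j + 1))) tendsto_id
  exact h4.frequently h3

end Pool.Agent.N956.PL
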