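import Pool.Agent.TH494.PT.UpB

/-!
Sums of local counts near the side of a box, uniformly over the position of the side.
-/

set_option autoImplicit false

namespace Pool.Agent.N956.PL

open H974 Finset H342P H984P H984N TH992.T TH494.PT

/-- Chernoff bound on a line: variables whose indices are congruent modulo `3` are independent. -/
theorem chern3 {p : Edg → ℝ} (hp : Ok p) {S : Finset Edg} (n : ℕ) (T : ℕ → Finset Edg)
    (hT : ∀ q, T q ⊆ S)
    (hd : ∀ q r : ℕ, q ≠ r → q % 3 = r % 3 → Disjoint (T q) (T r))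
    (Y : ℕ → Finset Edg → ℝ) (hY : ∀ q, ∀ F, F ⊆ S → Y q F = Y q (F ∩ T q)) {M : ℝ}
    (hM1 : 1 ≤ M) (hM : ∀ q, Ex p S (fun F => Real.exp (Y q F)) ≤ M) (t : ℝ) :
    Pr p S (fun F => 3 * t ≤ ∑ q ∈ range n, Y q F) ≤ 3 * (Real.exp (-t) * M ^ n) := by
  classical
  have hmap : ∀ q ∈ range n, q % 3 ∈ range 3 := fun q _ => by
    rw [mem_range]; exact Nat.mod_lt _ (by norm_num)
  have hfib : ∀ F, ∑ q ∈ range n, Y q F = ∑ c ∈ range 3, ∑ q ∈ range n with q % 3 = c, Y q F :=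
    fun F => (sum_fiberwise_of_maps_to hmap _).symm
  have h1 : Pr p S (fun F => 3 * t ≤ ∑ q ∈ range n, Y q F) ≤
      Ex p S (fun F => ∑ c ∈ range 3, ind (t ≤ ∑ q ∈ range n with q % 3 = c, Y q F)) := by
    unfold Pr
    refine Ex_mono hp fun F _ => ?_
    by_cases h : 3 * t ≤ ∑ q ∈ range n, Y q F
    · rw [ind_of h]
      rw [hfib] at h
      obtain ⟨c, hc, hc2⟩ : ∃ c ∈ range 3, t ≤ ∑ q ∈ range n with q % 3 = c, Y q F := by
        by_contra hcon
        push Not at hcon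
        have h2 : ∑ c ∈ range 3, ∑ q ∈ range n with q % 3 = c, Y q F < ∑ c ∈ range 3, t :=
          sum_lt_sum_of_nonempty (card_pos.mp (by rw [card_range]; norm_num)) hcon
        rw [sum_const, card_range, nsmul_eq_mul] at h2
        push_cast at h2
        linarith
      calc (1:ℝ) = ind (t ≤ ∑ q ∈ range n with q % 3 = c, Y q F) := (ind_of hc2).symm
        _ ≤ _ := single_le_sum (f := fun c => ind (t ≤ ∑ q ∈ range n with q % 3 = c, Y q F))
          (fun c _ => ind_nonneg _) hc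
    · rw [ind_not_of h]
      exact sum_nonneg fun c _ => ind_nonneg _
  refine h1.trans ?_
  rw [Ex_sum]
  have h2 : ∀ c ∈ range 3, Ex p S (fun F => ind (t ≤ ∑ q ∈ range n with q % 3 = c, Y q F)) ≤
      Real.exp (-t) * M ^ n := by
    intro c _
    have h3 := chern1 hp ((range n).filter (fun q => q % 3 = c)) T (fun i _ => hT i)
      (fun i hi j hj hij => by
        rw [mem_filter] at hi hj
        exact hd i j hij (hi.2.trans hj.2.symm)) Y (fun i _ => hY i) (fun i _ => hM i) t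
    refine h3.trans (mul_le_mul_of_nonneg_left ?_ (Real.exp_pos _).le)
    refine pow_le_pow_right₀ hM1 ?_
    refine (card_filter_le _ _).trans ?_
    rw [card_range]
  refine (sum_le_sum h2).trans ?_
  rw [sum_const, card_range, nsmul_eq_mul]
  push_cast
  exact le_refl _

/-- Chernoff bound for the normalised counts on a line of boxes -/
theorem col_tail {a B C0 : ℝ} (ha : 0 < a) (ha1 : a < 1) (hC0 : 0 ≤ C0) : ∃ L : ℝ, 0 ≤ L ∧
    ∀ (p : Edg → ℝ) (S : Finset Edg) (x : ℕ → Vtx → Finset Edg → ℝ), Fam a B C0 p S x →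
    ∀ (g : ℕ → ℕ × ℕ), (∀ i j, i ≠ j → i % 3 = j % 3 → g i ≠ g j ∧ (g i).1 % 3 = (g j).1 % 3 ∧
      (g i).2 % 3 = (g j).2 % 3) → ∀ (r J : ℕ) (z : ℝ), 1 ≤ r → (J : ℝ) ≤ z →
      Pr p S (fun F => 6 * (L + 2) * z ≤ ∑ q ∈ range J,
        Yb a x r (0 + ((g q).1 : ℕ) * (r : ℕ)) (0 + ((g q).2 : ℕ) * (r : ℕ)) F) ≤
        3 * Real.exp (-(2 * z)) := by
  obtain ⟨M, hM1, hM⟩ := exp_mom (C0 := C0) ha ha1 B hC0
  have hM0 : 0 < M := by linarith
  refine ⟨Real.log M, Real.log_nonneg hM1, fun p S x h g hg r J z hr hJ => ?_⟩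
  have hP : Pr p S (fun F => 6 * (Real.log M + 2) * z ≤ ∑ q ∈ range J,
        Yb a x r (0 + ((g q).1 : ℕ) * (r : ℕ)) (0 + ((g q).2 : ℕ) * (r : ℕ)) F) ≤
      Pr p S (fun F => 3 * ((Real.log M + 2) * z) ≤ ∑ q ∈ range J,
        Yb a x r (0 + ((g q).1 : ℕ) * (r : ℕ)) (0 + ((g q).2 : ℕ) * (r : ℕ)) F / 2) := by
    refine Pr_mono h.ok fun F _ hF => ?_
    rw [← sum_div]
    linarith
  have hB := chern3 h.ok J (fun q => Tb S r (0 + ((g q).1 : ℕ) * (r : ℕ)) (0 + ((g q).2 : ℕ) * (r : ℕ)))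
      (fun q => inter_subset_right)
      (fun q q' hqq h1 => by
        obtain ⟨g1, g2, g3⟩ := hg q q' hqq h1
        exact Tb_disj hr g1 g2 g3)
      (fun q F => Yb a x r (0 + ((g q).1 : ℕ) * (r : ℕ)) (0 + ((g q).2 : ℕ) * (r : ℕ)) F / 2)
      (fun q F hF => by
        simp only [Yb]
        rw [← Nb_local h r _ _ F hF])
      (M := M) hM1
      (fun q => hM p S x h r _ _ hr) ((Real.log M + 2) * z)
  refine hP.trans (hB.trans (mul_le_mul_of_nonneg_left ?_ (by norm_num)))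
  have e1 : M ^ J = Real.exp ((J : ℝ) * Real.log M) := by
    rw [Real.exp_nat_mul, Real.exp_log hM0]
  rw [e1, ← Real.exp_add]
  refine Real.exp_le_exp.mpr ?_
  have := mul_le_mul_of_nonneg_right hJ (Real.log_nonneg hM1)
  linarith

/-- the counts near a side -/
theorem line_det {x : ℕ → Vtx → Finset Edg → ℝ} (hx0 : ∀ s v F, 0 ≤ x s v F)
    (hx4 : ∀ s v F, x s v F ≤ 4) (hanti : ∀ s s' v F, s' ≤ s → x s v F ≤ x s' v F)
    {F : Finset Edg} {π₁ π₂ : Vtx → ℤ} {W : ℕ → ℕ → ℕ → Finset Vtx}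
    (hW : ∀ ρ k j v, v ∈ W ρ k j ↔ (((k : ℤ) * ρ ≤ π₁ v ∧ π₁ v < k * ρ + ρ) ∧
      ((j : ℤ) * ρ ≤ π₂ v ∧ π₂ v < j * ρ + ρ))) {V : Finset Vtx} {n N r I : ℕ} (hn : n ≤ 2 * N)
    (hI : r < 2 ^ I) (hV : ∀ v ∈ V, 0 ≤ π₁ v ∧ π₁ v ≤ n ∧ 0 ≤ π₂ v ∧ π₂ v ≤ n ∧ n - π₁ v ≤ r)
    (hV0 : ((V.filter (fun v => π₁ v = n)).card : ℝ) ≤ n + 1) (t : ℕ → ℝ)
    (ht : ∀ i < I, ∀ k < 2 * N / 2 ^ i + 1, ∑ j ∈ range (2 * N / 2 ^ i + 1),
      ∑ v ∈ W (2 ^ i) k j, x (2 ^ i) v F ≤ t i) :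
    ∑ v ∈ V, x (n - π₁ v).toNat v F ≤ 4 * ((n:ℝ) + 1) + ∑ i ∈ range I, 2 * t i := by
  classical
  rw [← sum_filter_add_sum_filter_not V (fun v => π₁ v = n)]
  refine add_le_add ?_ ?_
  · refine (sum_le_card_nsmul _ _ 4 (fun v _ => hx4 _ v F)).trans ?_
    rw [nsmul_eq_mul]
    linarith
  · have hsub : V.filter (fun v => ¬ π₁ v = n) ⊆ (range I).biUnion (fun i =>
        V.filter (fun v => (2:ℤ) ^ i ≤ n - π₁ v ∧ n - π₁ v < 2 ^ (i + 1))) := by
      intro v hv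
      rw [mem_filter] at hv
      obtain ⟨h1, h2, h3, h4, h5⟩ := hV v hv.1
      obtain ⟨d, hd⟩ := Int.eq_ofNat_of_zero_le (show 0 ≤ (n:ℤ) - π₁ v by omega)
      have hd0 : d ≠ 0 := by
        rintro rfl
        apply hv.2
        push_cast at hd
        omega
      have hdr : d ≤ r := by omega
      rw [mem_biUnion]
      refine ⟨Nat.log 2 d, ?_, ?_⟩
      · rw [mem_range]
        have h6 : 2 ^ Nat.log 2 d < 2 ^ I := lt_of_le_of_lt (Nat.pow_log_le_self 2 hd0)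
          (lt_of_le_of_lt hdr hI)
        exact (Nat.pow_lt_pow_iff_right (by norm_num)).1 h6
      · rw [mem_filter]
        refine ⟨hv.1, ?_, ?_⟩
        · rw [hd]
          exact_mod_cast Nat.pow_log_le_self 2 hd0
        · rw [hd]
          exact_mod_cast Nat.lt_pow_succ_log_self (by norm_num) d
    refine (sum_le_sum_of_subset_of_nonneg hsub fun v _ _ => hx0 _ _ _).trans
      ((sum_bi_le _ _ _ fun v => hx0 _ _ _).trans (sum_le_sum fun i hi => ?_))
    rw [mem_range] at hi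
    obtain ⟨ρ, hρ⟩ : ∃ ρ : ℕ, ρ = 2 ^ i := ⟨_, rfl⟩
    have hρ0 : 0 < ρ := by rw [hρ]; positivity
    have hρz : (2:ℤ) ^ i = ρ := by rw [hρ]; push_cast; rfl
    obtain ⟨k1, hk1⟩ : ∃ k1 : ℕ, k1 = (n - ρ) / ρ := ⟨_, rfl⟩
    have ht' := ht i hi
    rw [← hρ] at ht'
    have hJ : ∀ m : ℕ, m ≤ 2 * N → m / ρ < 2 * N / ρ + 1 := by
      intro m hm
      have := Nat.div_le_div_right (c := ρ) hm
      omega
    have hk1J : k1 < 2 * N / ρ + 1 := by rw [hk1]; exact hJ _ (by omega)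
    obtain ⟨Cc, hCc⟩ : ∃ Cc : ℕ → Finset Vtx,
      Cc = fun k => (range (2 * N / ρ + 1)).biUnion (fun j => W ρ k j) := ⟨_, rfl⟩
    have hCs : ∀ k < 2 * N / ρ + 1, ∑ v ∈ Cc k, x ρ v F ≤ t i := by
      intro k hk
      rw [hCc]
      exact (sum_bi_le _ _ _ fun v => hx0 _ _ _).trans (ht' k hk)
    have hsub2 : V.filter (fun v => (2:ℤ) ^ i ≤ n - π₁ v ∧ n - π₁ v < 2 ^ (i + 1)) ⊆
        Cc k1 ∪ Cc (k1 - 1) := by
      intro v hv
      rw [mem_filter] at hv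
      obtain ⟨h1, h2, h3, h4, h5⟩ := hV v hv.1
      obtain ⟨a, ha⟩ := Int.eq_ofNat_of_zero_le h1
      obtain ⟨b, hb⟩ := Int.eq_ofNat_of_zero_le h3
      have h6 := hv.2
      rw [pow_succ, hρz, ha] at h6
      rw [ha] at h2
      rw [hb] at h4
      have h7 : a + ρ ≤ n := by omega
      have h8 : n < a + ρ * 2 := by omega
      have hmem : v ∈ Cc (a / ρ) := by
        rw [hCc]
        simp only [mem_biUnion, mem_range]
        refine ⟨b / ρ, hJ b (by omega), ?_⟩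
        rw [hW, ha, hb]
        have e1 := Nat.div_mul_le_self a ρ
        have e2 := Nat.lt_div_mul_add (a := a) hρ0
        have e3 := Nat.div_mul_le_self b ρ
        have e4 := Nat.lt_div_mul_add (a := b) hρ0
        refine ⟨⟨?_, ?_⟩, ?_, ?_⟩ <;> exact_mod_cast (by assumption)
      have hcase : a / ρ = k1 ∨ a / ρ = k1 - 1 := by
        have g1 : a / ρ ≤ k1 := by
          rw [hk1]
          exact Nat.div_le_div_right (by omega)
        have g2 : k1 ≤ a / ρ + 1 := by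
          rw [hk1, ← Nat.add_div_right a hρ0]
          exact Nat.div_le_div_right (by omega)
        generalize a / ρ = u at g1 g2
        omega
      rw [mem_union]
      rcases hcase with h | h
      · left; rw [← h]; exact hmem
      · right; rw [← h]; exact hmem
    calc ∑ v ∈ V.filter (fun v => (2:ℤ) ^ i ≤ n - π₁ v ∧ n - π₁ v < 2 ^ (i + 1)),
          x (n - π₁ v).toNat v F
        ≤ ∑ v ∈ V.filter (fun v => (2:ℤ) ^ i ≤ n - π₁ v ∧ n - π₁ v < 2 ^ (i + 1)),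
          x ρ v F := by
          refine sum_le_sum fun v hv => hanti _ _ _ _ ?_
          rw [mem_filter, hρz] at hv
          omega
      _ ≤ ∑ v ∈ Cc k1 ∪ Cc (k1 - 1), x ρ v F :=
          sum_le_sum_of_subset_of_nonneg hsub2 fun v _ _ => hx0 _ _ _
      _ ≤ ∑ v ∈ Cc k1, x ρ v F + ∑ v ∈ Cc (k1 - 1), x ρ v F := by
          have h := sum_union_inter (s₁ := Cc k1) (s₂ := Cc (k1 - 1)) (f := fun v => x ρ v F)
          have h2 : 0 ≤ ∑ v ∈ Cc k1 ∩ Cc (k1 - 1), x ρ v F := sum_nonneg fun v _ => hx0 _ _ _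
          linarith
      _ ≤ 2 * t i := by
          have := hCs k1 hk1J
          have := hCs (k1 - 1) (by omega)
          linarith

end Pool.Agent.N956.PL
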