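import Pool.Agent.N956.PL.MaxA

/-!
The local counts of a smaller box inside a larger one.
-/

set_option autoImplicit false

namespace Pool.Agent.N956.PL

open H974 Finset H342P H984P H984N TH992.T TH494.PT

/-- the count at a vertex of the smaller box -/
theorem xs_box {n M r t : ℕ} (hn : n ≤ M) {v : Vtx} (hv : (0 ≤ v.1 ∧ v.1 ≤ n) ∧ 0 ≤ v.2 ∧ v.2 ≤ n)
    (ht : (t : ℤ) = min (r : ℤ) (min ((n:ℤ) - v.1) ((n:ℤ) - v.2))) (F : Finset Edg) :
    xs (Dn n) r v (F ∩ RE 0 n 0 n) = xs (Dn M) t v F := by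
  classical
  have hnM : (n:ℤ) ≤ M := by exact_mod_cast hn
  have hm : min (r : ℤ) ((Dn n).bd v) = min (t : ℤ) ((Dn M).bd v) := by
    rw [Dn_bd, Dn_bd]
    unfold bdist
    omega
  unfold xs
  refine sum_congr rfl fun q _ => ?_
  rw [if_pos (xs_mem' (D := Dn n) q (by unfold Dn; simp only; omega)),
    if_pos (xs_mem' (D := Dn M) q (by unfold Dn; simp only; omega)), ← hm]
  congr 1
  rcases le_or_gt (min (r : ℤ) ((Dn n).bd v)) 0 with h | h
  · simp only [h, true_or]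
  · rw [two_inter h F (T := RE 0 n 0 n)]
    have h2 : min (r : ℤ) ((Dn n).bd v) ≤ bdist n v := by
      rw [Dn_bd]; exact min_le_right _ _
    unfold bdist at h2
    exact RE_sub_RE (by omega) (by omega) (by omega) (by omega)

/-- the counts of the smaller box -/
theorem sum_box {n N r : ℕ} (hn : n ≤ 2 * N) (F : Finset Edg) :
    ∑ v ∈ Bq 0 0 (n + 1), xs (Dn n) r v (F ∩ RE 0 n 0 n) ≤
      ∑ v ∈ Bq 0 0 (2 * N + 1), xs (Dn (2 * N)) r v F +
      ∑ v ∈ (Bq 0 0 (n + 1)).filter (fun v => (n:ℤ) - v.1 ≤ r),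
        xs (Dn (2 * N)) (n - v.1).toNat v F +
      ∑ v ∈ (Bq 0 0 (n + 1)).filter (fun v => (n:ℤ) - v.2 ≤ r),
        xs (Dn (2 * N)) (n - v.2).toNat v F := by
  classical
  have hx0 : ∀ s v, 0 ≤ xs (Dn (2 * N)) s v F := by
    intro s v
    unfold xs
    refine sum_nonneg fun q _ => ?_
    split_ifs
    · exact ind_nonneg _
    · exact le_refl _
  have h1 : ∑ v ∈ Bq 0 0 (n + 1), xs (Dn (2 * N)) r v F ≤
      ∑ v ∈ Bq 0 0 (2 * N + 1), xs (Dn (2 * N)) r v F := by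
    refine sum_le_sum_of_subset_of_nonneg ?_ fun v _ _ => hx0 _ _
    intro v hv
    rw [mem_Bq] at hv ⊢
    push_cast at hv ⊢
    omega
  refine le_trans ?_ (add_le_add_left (add_le_add_left h1 _) _)
  rw [sum_filter, sum_filter, ← sum_add_distrib, ← sum_add_distrib]
  refine sum_le_sum fun v hv => ?_
  rw [mem_Bq] at hv
  push_cast at hv
  obtain ⟨t, ht⟩ : ∃ t : ℕ, (t : ℤ) = min (r : ℤ) (min ((n:ℤ) - v.1) ((n:ℤ) - v.2)) := by
    obtain ⟨t, ht⟩ := Int.eq_ofNat_of_zero_le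
      (show 0 ≤ min (r : ℤ) (min ((n:ℤ) - v.1) ((n:ℤ) - v.2)) by omega)
    exact ⟨t, ht.symm⟩
  rw [xs_box hn (by omega) ht F]
  have g1 : 0 ≤ (if (n:ℤ) - v.1 ≤ r then xs (Dn (2 * N)) (n - v.1).toNat v F else 0) := by
    split_ifs
    · exact hx0 _ _
    · exact le_refl _
  have g2 : 0 ≤ (if (n:ℤ) - v.2 ≤ r then xs (Dn (2 * N)) (n - v.2).toNat v F else 0) := by
    split_ifs
    · exact hx0 _ _
    · exact le_refl _
  have g0 := hx0 r v
  rcases (show t = r ∨ ((n:ℤ) - v.1 ≤ r ∧ t = (n - v.1).toNat) ∨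
    ((n:ℤ) - v.2 ≤ r ∧ t = (n - v.2).toNat) by omega) with h | ⟨h, h2⟩ | ⟨h, h2⟩
  · rw [h]
    linarith
  · rw [if_pos h] at g1 ⊢
    rw [← h2] at g1 ⊢
    linarith
  · rw [if_pos h] at g2 ⊢
    rw [← h2] at g2 ⊢
    linarith

/-- Deterministic bound for the perimeter of the largest cluster of a smaller box. -/
theorem per_det {n N r I : ℕ} (hn : n ≤ 2 * N) (hI : r < 2 ^ I) {F : Finset Edg} {v : Vtx}
    (hv : IsMax n (↑(F ∩ RE 0 n 0 n)) v) (hb : Big n r (↑(F ∩ RE 0 n 0 n)))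
    {m : ℝ} (hm : ∑ v ∈ Bq 0 0 (2 * N + 1), xs (Dn (2 * N)) r v F ≤ m) (t : ℕ → ℝ)
    (hc : ∀ i < I, ∀ k < 2 * N / 2 ^ i + 1, ∑ j ∈ range (2 * N / 2 ^ i + 1),
      Nb (xs (Dn (2 * N))) (2 ^ i) (0 + ((k:ℕ):ℤ) * ((2 ^ i : ℕ):ℤ)) (0 + ((j:ℕ):ℤ) * ((2 ^ i : ℕ):ℤ)) F ≤ t i)
    (hr : ∀ i < I, ∀ k < 2 * N / 2 ^ i + 1, ∑ j ∈ range (2 * N / 2 ^ i + 1),
      Nb (xs (Dn (2 * N))) (2 ^ i) (0 + ((j:ℕ):ℤ) * ((2 ^ i : ℕ):ℤ)) (0 + ((k:ℕ):ℤ) * ((2 ^ i : ℕ):ℤ)) F ≤ t i) :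
    (per n (↑(F ∩ RE 0 n 0 n)) v : ℝ) ≤
      2 * (m + 2 * (4 * ((n:ℝ) + 1) + ∑ i ∈ range I, 2 * t i)) := by
  classical
  have hx0 : ∀ s v F, 0 ≤ xs (Dn (2 * N)) s v F := by
    intro s v F
    unfold xs
    refine sum_nonneg fun q _ => ?_
    split_ifs
    · exact ind_nonneg _
    · exact le_refl _
  have hx4 : ∀ s v F, xs (Dn (2 * N)) s v F ≤ 4 := by
    intro s v F
    unfold xs
    have h : ∀ q ∈ (Finset.univ : Finset Q4), (if (v, q) ∈ (Dn (2 * N)).states then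
        ind (min (s : ℤ) ((Dn (2 * N)).bd v) ≤ 0 ∨
          Two v (face (v, q)) (min (s : ℤ) ((Dn (2 * N)).bd v)) (↑F)) else 0) ≤ (1 : ℝ) := by
      intro q _
      split_ifs
      · exact ind_le_one _
      · exact zero_le_one
    refine (sum_le_sum h).trans ?_
    rw [sum_const, card_univ, Moments_card, nsmul_eq_mul]
    norm_num
  have hanti : ∀ s s' v F, s' ≤ s → xs (Dn (2 * N)) s v F ≤ xs (Dn (2 * N)) s' v F := by
    intro s s' v F h
    unfold xs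
    refine sum_le_sum fun q _ => ?_
    split_ifs with hq
    · have hmin : min (s' : ℤ) ((Dn (2 * N)).bd v) ≤ min (s : ℤ) ((Dn (2 * N)).bd v) := by omega
      refine ind_mono ?_
      rintro (h1 | h1)
      · exact Or.inl (hmin.trans h1)
      · exact Or.inr (two_anti hmin h1)
    · exact le_refl _
  have h1 := (per_le hv hb).trans (NN_le n r (F ∩ RE 0 n 0 n))
  have h2 := sum_box (r := r) hn F
  have c1 : (((((Bq 0 0 (n + 1)).filter (fun v : Vtx => (n:ℤ) - v.1 ≤ r)).filter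
      (fun v : Vtx => v.1 = n)).card : ℕ) : ℝ) ≤ n + 1 := by
    have : (((Bq 0 0 (n + 1)).filter (fun v : Vtx => (n:ℤ) - v.1 ≤ r)).filter
      (fun v : Vtx => v.1 = n)).card ≤ (({(n:ℤ)} : Finset ℤ) ×ˢ Finset.Icc (0:ℤ) n).card := by
      refine card_le_card fun v hv => ?_
      rw [mem_filter, mem_filter, mem_Bq] at hv
      rw [mem_product, mem_singleton, mem_Icc]
      push_cast at hv
      omega
    rw [card_product, card_singleton, Int.card_Icc, one_mul] at this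
    have h3 : ((n:ℤ) + 1 - 0).toNat = n + 1 := by omega
    rw [h3] at this
    exact_mod_cast this
  have c2 : (((((Bq 0 0 (n + 1)).filter (fun v : Vtx => (n:ℤ) - v.2 ≤ r)).filter
      (fun v : Vtx => v.2 = n)).card : ℕ) : ℝ) ≤ n + 1 := by
    have : (((Bq 0 0 (n + 1)).filter (fun v : Vtx => (n:ℤ) - v.2 ≤ r)).filter
      (fun v : Vtx => v.2 = n)).card ≤ (Finset.Icc (0:ℤ) n ×ˢ ({(n:ℤ)} : Finset ℤ)).card := by
      refine card_le_card fun v hv => ?_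
      rw [mem_filter, mem_filter, mem_Bq] at hv
      rw [mem_product, mem_singleton, mem_Icc]
      push_cast at hv
      omega
    rw [card_product, card_singleton, Int.card_Icc, mul_one] at this
    have h3 : ((n:ℤ) + 1 - 0).toNat = n + 1 := by omega
    rw [h3] at this
    exact_mod_cast this
  have l1 := line_det hx0 hx4 hanti (F := F) (π₁ := fun v => v.1) (π₂ := fun v => v.2)
    (W := fun ρ k j => Bq (0 + (k:ℤ) * ρ) (0 + (j:ℤ) * ρ) ρ) (fun ρ k j v => by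
      rw [mem_Bq, zero_add, zero_add])
    (V := (Bq 0 0 (n + 1)).filter (fun v : Vtx => (n:ℤ) - v.1 ≤ r)) (r := r) hn hI (fun v hv => by
      rw [mem_filter, mem_Bq] at hv
      push_cast at hv
      omega) c1 t (fun i hi k hk => hc i hi k hk)
  have l2 := line_det hx0 hx4 hanti (F := F) (π₁ := fun v => v.2) (π₂ := fun v => v.1)
    (W := fun ρ k j => Bq (0 + (j:ℤ) * ρ) (0 + (k:ℤ) * ρ) ρ) (fun ρ k j v => by
      rw [mem_Bq, zero_add, zero_add]
      exact and_comm)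
    (V := (Bq 0 0 (n + 1)).filter (fun v : Vtx => (n:ℤ) - v.2 ≤ r)) (r := r) hn hI (fun v hv => by
      rw [mem_filter, mem_Bq] at hv
      push_cast at hv
      omega) c2 t (fun i hi k hk => hr i hi k hk)
  linarith

end Pool.Agent.N956.PL
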