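import Pool.Agent.N956.PL.MaxB
import Pool.Agent.H974R2.Split

/-!
The maximal inequality for the perimeter of the largest cluster.
-/

set_option autoImplicit false

namespace Pool.Agent.N956.PL

open H974 Finset H342P H984P H984N TH992.T TH494.PT

theorem big_mono {n N : ℕ} (h : N ≤ n) {m : ℤ} {F : Finset Edg}
    (hb : Big N m (↑(F ∩ RE 0 N 0 N))) : Big n m (↑(F ∩ RE 0 n 0 n)) := by
  obtain ⟨c, d, hc, hd, hr, h8⟩ := hb
  have hNn : (N:ℤ) ≤ n := by exact_mod_cast h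
  refine ⟨c, d, ?_, ?_, hr.mono ?_, h8⟩
  · unfold inR at hc ⊢; omega
  · unfold inR at hd ⊢; omega
  · exact coe_subset.2 (inter_subset_inter_left (RE_sub_RE le_rfl hNn le_rfl hNn))

/-- numerical estimate for the sum over the scales -/
theorem geo_sum {r I : ℕ} (hr : 1 ≤ r) (hI : 2 ^ I ≤ 2 * r) :
    ∑ i ∈ range I, (((2 ^ i : ℕ) : ℝ)) ^ (3/4 : ℝ) ≤ 2 * (2 * (r : ℝ)) ^ (3/4 : ℝ) := by
  obtain ⟨g, hg⟩ : ∃ g : ℝ, g = (2:ℝ) ^ (3/4 : ℝ) := ⟨_, rfl⟩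
  have hg0 : 0 < g := by rw [hg]; positivity
  have hg4 : g ^ 4 = 8 := by
    rw [hg, ← Real.rpow_natCast, ← Real.rpow_mul (by norm_num)]
    norm_num
  have hg1 : 3/2 ≤ g := by
    by_contra hcon
    push Not at hcon
    have h1 : g ^ 4 < (3/2) ^ 4 := pow_lt_pow_left₀ hcon hg0.le (by norm_num)
    rw [hg4] at h1
    norm_num at h1
  have e1 : ∀ i : ℕ, (((2 ^ i : ℕ) : ℝ)) ^ (3/4 : ℝ) = g ^ i := by
    intro i
    push_cast
    rw [hg, ← Real.rpow_natCast, ← Real.rpow_natCast, ← Real.rpow_mul (by norm_num),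
      ← Real.rpow_mul (by norm_num), mul_comm]
  rw [sum_congr rfl fun i _ => e1 i, geom_sum_eq (by linarith)]
  have h2 : g ^ I ≤ (2 * (r : ℝ)) ^ (3/4 : ℝ) := by
    rw [← e1]
    refine Real.rpow_le_rpow (by positivity) ?_ (by norm_num)
    exact_mod_cast hI
  rw [div_le_iff₀ (by linarith)]
  have h3 : 0 ≤ (2 * (r : ℝ)) ^ (3/4 : ℝ) := by positivity
  nlinarith

/-- The maximal inequality. -/
theorem max_ineq {C : ℝ} (hC : 0 < C) (hU : TwoUp C (1/4)) : ∃ B : ℝ, 0 < B ∧ ∀ N K : ℕ,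
    8 ≤ K → K ≤ 2 * N + 1 →
    Pr (fun _ => (1/2:ℝ)) (RE 0 ((2 * N : ℕ) : ℤ) 0 ((2 * N : ℕ) : ℤ)) (fun F => ∃ n : ℕ, N ≤ n ∧ n ≤ 2 * N ∧
      ∃ v, IsMax n (↑(F ∩ RE 0 n 0 n)) v ∧
        B * (K : ℝ) ^ (1/4 : ℝ) * (N : ℝ) ^ (7/4 : ℝ) < (per n (↑(F ∩ RE 0 n 0 n)) v : ℝ)) ≤
      26 * Real.exp (-(((K : ℝ) * K) / 512)) := by
  classical
  have hok : Ok (fun _ : Edg => (1/2:ℝ)) := fun _ => ⟨by norm_num, by norm_num⟩
  obtain ⟨l, hl1, -, htail⟩ := tail_sum (a := 1/4)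
    (C0 := 4 * (C + 1) * (1 + 8 * (1 + 1 / (1 - 1/4))))
    (by norm_num) (by norm_num) 4 (by positivity)
  obtain ⟨L, hL0, hcol⟩ := col_tail (a := 1/4) (B := 4)
    (C0 := 4 * (C + 1) * (1 + 8 * (1 + 1 / (1 - 1/4))))
    (by norm_num) (by norm_num) (by positivity)
  refine ⟨2 * (9 * l / 2 + 2 * (12 + 2 * (216 * (L + 2)))), by positivity, fun N K hK8 hKN => ?_⟩
  have hfam := xs_fam hC hU (Dn (2 * N))
  have hN4 : 4 ≤ N := by omega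
  have hNR : (4:ℝ) ≤ N := by exact_mod_cast hN4
  have hKR : (8:ℝ) ≤ K := by exact_mod_cast hK8
  obtain ⟨r, hr⟩ : ∃ r : ℕ, r = (2 * N + 1) / K := ⟨_, rfl⟩
  obtain ⟨s1, s2, s3, s4⟩ := side (by omega : 1 ≤ K) hKN
  rw [← hr] at s1 s2 s3 s4
  have hrN : r ≤ N := by nlinarith
  obtain ⟨I, hI⟩ : ∃ I : ℕ, I = Nat.log 2 r + 1 := ⟨_, rfl⟩
  have hI1 : r < 2 ^ I := by rw [hI]; exact Nat.lt_pow_succ_log_self (by norm_num) r
  have hIp : ∀ i < I, 2 ^ i ≤ r := by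
    intro i hi
    rw [hI] at hi
    exact (Nat.pow_le_pow_right (by norm_num) (by omega)).trans
      (Nat.pow_log_le_self 2 (by omega))
  have hI2 : 2 ^ I ≤ 2 * r := by
    rw [hI, pow_succ]
    have := Nat.pow_log_le_self 2 (x := r) (by omega)
    omega
  have hN0 : (0:ℝ) < N := by linarith
  have hK0 : (0:ℝ) < K := by linarith
  have hKr : (K:ℝ) * r ≤ 3 * N := by
    have h1 : (K:ℝ) * r ≤ 2 * N + 1 := by exact_mod_cast s3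
    linarith
  -- the parameters of the scales
  obtain ⟨y, hy⟩ : ∃ y : ℕ → ℝ, y = fun i => 3 * (N:ℝ) / ((2 ^ i : ℕ) : ℝ) := ⟨_, rfl⟩
  have hρ0 : ∀ i : ℕ, (0:ℝ) < ((2 ^ i : ℕ) : ℝ) := fun i => by positivity
  have hρr : ∀ i < I, ((2 ^ i : ℕ) : ℝ) ≤ r := fun i hi => by exact_mod_cast hIp i hi
  have hrNR : (r:ℝ) ≤ N := by exact_mod_cast hrN
  have hJy : ∀ i < I, ((2 * N / 2 ^ i + 1 : ℕ) : ℝ) ≤ y i := by
    intro i hi
    rw [hy]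
    simp only
    rw [le_div_iff₀ (hρ0 i)]
    have h1 : 2 * N / 2 ^ i * 2 ^ i ≤ 2 * N := Nat.div_mul_le_self _ _
    have h2 : (2 * N / 2 ^ i + 1) * 2 ^ i ≤ 3 * N := by
      have := hIp i hi
      nlinarith
    exact_mod_cast h2
  have hKy : ∀ i < I, (K:ℝ) ≤ y i := by
    intro i hi
    rw [hy]
    simp only
    rw [le_div_iff₀ (hρ0 i)]
    exact (mul_le_mul_of_nonneg_left (hρr i hi) hK0.le).trans hKr
  have hy0 : ∀ i, 0 < y i := fun i => by rw [hy]; have := hρ0 i; positivity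
  -- the bound for one scale
  have hone : ∀ i < I, ((2 * N / 2 ^ i + 1 : ℕ) : ℝ) * (3 * Real.exp (-(2 * (K * y i)))) ≤
      Real.exp (-((K:ℝ) * K)) * (4 * ((2:ℝ) ^ i / N)) := by
    intro i hi
    have h1 : (y i) * Real.exp (-(y i)) ≤ 4 / y i := by
      rw [le_div_iff₀ (hy0 i), Real.exp_neg, mul_comm, ← mul_assoc, ← div_eq_mul_inv,
        div_le_iff₀ (Real.exp_pos _)]
      have h2 := Real.add_one_le_exp (y i / 2)
      have h3 : Real.exp (y i) = Real.exp (y i / 2) * Real.exp (y i / 2) := by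
        rw [← Real.exp_add]; congr 1; ring
      have h4 := hy0 i
      rw [h3]
      nlinarith
    have h5 : Real.exp (-(2 * (K * y i))) ≤ Real.exp (-((K:ℝ) * K)) * Real.exp (-(y i)) := by
      rw [← Real.exp_add]
      refine Real.exp_le_exp.2 ?_
      have h6 := hKy i hi
      nlinarith
    have h7 : 4 / y i = 4 * ((2:ℝ) ^ i / N) / 3 := by
      rw [hy]
      simp only
      push_cast
      field_simp
    calc ((2 * N / 2 ^ i + 1 : ℕ) : ℝ) * (3 * Real.exp (-(2 * (K * y i))))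
        ≤ y i * (3 * (Real.exp (-((K:ℝ) * K)) * Real.exp (-(y i)))) := by
          refine mul_le_mul (hJy i hi) (mul_le_mul_of_nonneg_left h5 (by norm_num))
            (by positivity) (hy0 i).le
      _ = 3 * Real.exp (-((K:ℝ) * K)) * (y i * Real.exp (-(y i))) := by ring
      _ ≤ 3 * Real.exp (-((K:ℝ) * K)) * (4 * ((2:ℝ) ^ i / N) / 3) := by
          rw [← h7]
          exact mul_le_mul_of_nonneg_left h1 (by positivity)
      _ = _ := by ring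
  have hsum : ∑ i ∈ range I, ((2 * N / 2 ^ i + 1 : ℕ) : ℝ) * (3 * Real.exp (-(2 * (K * y i)))) ≤
      8 * Real.exp (-((K:ℝ) * K)) := by
    refine (sum_le_sum fun i hi => hone i (mem_range.1 hi)).trans ?_
    rw [← mul_sum, ← mul_sum, ← sum_div, geom_sum_eq (by norm_num)]
    have h1 : ((2:ℝ) ^ I - 1) / (2 - 1) / N ≤ 2 := by
      rw [div_le_iff₀ hN0]
      have h2 : (2:ℝ) ^ I ≤ 2 * r := by exact_mod_cast hI2
      linarith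
    have h3 := Real.exp_pos (-((K:ℝ) * K))
    nlinarith
  -- the events
  obtain ⟨E2, hE2⟩ : ∃ E2 : Finset Edg → Prop, E2 = fun F =>
    ((l / 2) * (K:ℝ) ^ (1/4 : ℝ)) * (((2 * N + 1 : ℕ) : ℝ)) ^ (2 - 1/4 : ℝ) ≤
      ∑ v ∈ Bq 0 0 (2 * N + 1), xs (Dn (2 * N)) ((2 * N + 1) / K) v F := ⟨_, rfl⟩
  obtain ⟨E3, hE3⟩ : ∃ E3 : Finset Edg → Prop, E3 = fun F => ∃ i ∈ range I,
    ∃ k ∈ range (2 * N / 2 ^ i + 1), 6 * (L + 2) * (K * y i) ≤ ∑ j ∈ range (2 * N / 2 ^ i + 1),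
      Yb (1/4) (xs (Dn (2 * N))) (2 ^ i) (0 + ((k:ℕ):ℤ) * ((2 ^ i : ℕ):ℤ)) (0 + ((j:ℕ):ℤ) * ((2 ^ i : ℕ):ℤ)) F := ⟨_, rfl⟩
  obtain ⟨E4, hE4⟩ : ∃ E4 : Finset Edg → Prop, E4 = fun F => ∃ i ∈ range I,
    ∃ k ∈ range (2 * N / 2 ^ i + 1), 6 * (L + 2) * (K * y i) ≤ ∑ j ∈ range (2 * N / 2 ^ i + 1),
      Yb (1/4) (xs (Dn (2 * N))) (2 ^ i) (0 + ((j:ℕ):ℤ) * ((2 ^ i : ℕ):ℤ)) (0 + ((k:ℕ):ℤ) * ((2 ^ i : ℕ):ℤ)) F := ⟨_, rfl⟩
  have hS : (Dn (2 * N)).edges = RE 0 ((2 * N : ℕ) : ℤ) 0 ((2 * N : ℕ) : ℤ) := rfl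
  -- probabilities
  have p1 : Pr (fun _ => (1/2:ℝ)) (RE 0 ((2 * N : ℕ) : ℤ) 0 ((2 * N : ℕ) : ℤ))
      (fun F => ¬ Big N r (↑(F ∩ RE 0 N 0 N))) ≤ Real.exp (-(((K : ℝ) * K) / 512)) := by
    have hsub : RE 0 (N:ℤ) 0 (N:ℤ) ⊆ RE 0 ((2 * N : ℕ) : ℤ) 0 ((2 * N : ℕ) : ℤ) :=
      RE_sub_RE le_rfl (by push_cast; omega) le_rfl (by push_cast; omega)
    rw [Pr_local hsub (A := fun F : Finset Edg => ¬ Big N r (↑(F ∩ RE 0 N 0 N)))
      (fun F _ => by rw [inter_assoc, inter_self])]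
    rw [Pr_congr (B := fun F : Finset Edg => ¬ Big N r (↑F))
      (fun F hF => by rw [inter_eq_left.2 hF])]
    have hJ : K / 8 * (3 * r + 1) ≤ N + 1 := by
      have h1 : K / 8 * (3 * r + 1) ≤ K / 8 * (4 * r) := Nat.mul_le_mul_left _ (by omega)
      have h2 : K / 8 * 8 ≤ K := Nat.div_mul_le_self _ _
      have h3 : 2 * (K / 8 * (4 * r)) = (K / 8 * 8) * r := by ring
      have h4 : (K / 8 * 8) * r ≤ K * r := Nat.mul_le_mul_right _ h2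
      omega
    refine (pr_not_big2 (n := N) (L := 3 * r) (J := K / 8) (m := (r : ℤ)) (by omega)
      (by positivity) (by push_cast; exact le_refl _) (by exact_mod_cast hJ) (by omega)).trans ?_
    have h1 : (K:ℝ) / 16 ≤ ((K / 8 : ℕ) : ℝ) := by
      have h2 : K ≤ 16 * (K / 8) := by omega
      have h3 : (K:ℝ) ≤ 16 * ((K / 8 : ℕ) : ℝ) := by exact_mod_cast h2
      linarith
    have h2 : ((K:ℝ) * K) / 256 ≤ ((K / 8 * (K / 8) : ℕ) : ℝ) := by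
      push_cast
      nlinarith
    have h3 : ((1:ℝ)/2) ^ (K / 8 * (K / 8)) =
        Real.exp (-(((K / 8 * (K / 8) : ℕ) : ℝ) * Real.log 2)) := by
      rw [← mul_neg, Real.exp_nat_mul, Real.exp_neg, Real.exp_log (by norm_num)]
      norm_num
    rw [h3]
    refine Real.exp_le_exp.mpr ?_
    have h4 : (1/2 : ℝ) ≤ Real.log 2 := by
      have := Real.log_two_gt_d9
      linarith
    have h5 : ((K:ℝ) * K) / 256 * (1/2) ≤ ((K / 8 * (K / 8) : ℕ) : ℝ) * Real.log 2 :=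
      mul_le_mul h2 h4 (by norm_num) (Nat.cast_nonneg _)
    linarith
  have p2 : Pr (fun _ => (1/2:ℝ)) (RE 0 ((2 * N : ℕ) : ℤ) 0 ((2 * N : ℕ) : ℤ)) E2 ≤
      9 * Real.exp (-((K : ℝ) * K)) := by
    rw [hE2]
    refine htail (fun _ => (1/2:ℝ)) (Dn (2 * N)).edges (xs (Dn (2 * N))) hfam (2 * N + 1) K 0 0
      ((l / 2) * (K:ℝ) ^ (1/4 : ℝ)) (by omega) hKN (le_of_eq ?_)
    have : (K:ℝ) ^ (2 - 1/4 : ℝ) * (K:ℝ) ^ (1/4 : ℝ) = (K:ℝ) * K := by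
      rw [← Real.rpow_add hK0, show (2 - 1/4 + 1/4 : ℝ) = ((2:ℕ):ℝ) by norm_num,
        Real.rpow_natCast]
      ring
    rw [← this]
    ring
  have hzz : ∀ i < I, ((2 * N / 2 ^ i + 1 : ℕ) : ℝ) ≤ K * y i := by
    intro i hi
    have := hJy i hi
    have := hy0 i
    nlinarith
  have p3 : Pr (fun _ => (1/2:ℝ)) (RE 0 ((2 * N : ℕ) : ℤ) 0 ((2 * N : ℕ) : ℤ)) E3 ≤
      8 * Real.exp (-((K : ℝ) * K)) := by
    rw [hE3]
    refine (Pr_exists_le hok _ _ _).trans (le_trans (sum_le_sum fun i hi => ?_) hsum)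
    refine (Pr_exists_le hok _ _ _).trans ?_
    rw [mem_range] at hi
    refine (sum_le_card_nsmul _ _ (3 * Real.exp (-(2 * (K * y i)))) fun k _ => ?_).trans
      (le_of_eq (by rw [card_range, nsmul_eq_mul]))
    exact hcol (fun _ => (1/2:ℝ)) (Dn (2 * N)).edges (xs (Dn (2 * N))) hfam (fun j => (k, j))
      (fun a b hab h3 => ⟨fun h => hab (Prod.mk.inj h).2, rfl, h3⟩) (2 ^ i) _ _
      Nat.one_le_two_pow (hzz i hi)
  have p4 : Pr (fun _ => (1/2:ℝ)) (RE 0 ((2 * N : ℕ) : ℤ) 0 ((2 * N : ℕ) : ℤ)) E4 ≤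
      8 * Real.exp (-((K : ℝ) * K)) := by
    rw [hE4]
    refine (Pr_exists_le hok _ _ _).trans (le_trans (sum_le_sum fun i hi => ?_) hsum)
    refine (Pr_exists_le hok _ _ _).trans ?_
    rw [mem_range] at hi
    refine (sum_le_card_nsmul _ _ (3 * Real.exp (-(2 * (K * y i)))) fun k _ => ?_).trans
      (le_of_eq (by rw [card_range, nsmul_eq_mul]))
    exact hcol (fun _ => (1/2:ℝ)) (Dn (2 * N)).edges (xs (Dn (2 * N))) hfam (fun j => (j, k))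
      (fun a b hab h3 => ⟨fun h => hab (Prod.mk.inj h).1, h3, rfl⟩) (2 ^ i) _ _
      Nat.one_le_two_pow (hzz i hi)
  -- the deterministic part
  have hdet : Pr (fun _ => (1/2:ℝ)) (RE 0 ((2 * N : ℕ) : ℤ) 0 ((2 * N : ℕ) : ℤ))
      (fun F => ∃ n : ℕ, N ≤ n ∧ n ≤ 2 * N ∧
      ∃ v, IsMax n (↑(F ∩ RE 0 n 0 n)) v ∧
        2 * (9 * l / 2 + 2 * (12 + 2 * (216 * (L + 2)))) * (K : ℝ) ^ (1/4 : ℝ) *
          (N : ℝ) ^ (7/4 : ℝ) < (per n (↑(F ∩ RE 0 n 0 n)) v : ℝ)) ≤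
      Pr (fun _ => (1/2:ℝ)) (RE 0 ((2 * N : ℕ) : ℤ) 0 ((2 * N : ℕ) : ℤ))
      (fun F => ((¬ Big N r (↑(F ∩ RE 0 N 0 N))) ∨ E2 F) ∨ (E3 F ∨ E4 F)) := by
    refine Pr_mono hok fun F _ hF => ?_
    by_contra hcon
    push Not at hcon
    obtain ⟨⟨n1, n2⟩, n3, n4⟩ := hcon
    obtain ⟨n, hn1, hn2, v, hv, hlt⟩ := hF
    rw [hE2] at n2
    rw [hE3] at n3
    rw [hE4] at n4
    push Not at n2 n3 n4
    rw [← hr] at n2
    have conv : ∀ i < I, ∀ g : ℕ → ℤ × ℤ, ∑ j ∈ range (2 * N / 2 ^ i + 1),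
        Yb (1/4) (xs (Dn (2 * N))) (2 ^ i) (g j).1 (g j).2 F < 6 * (L + 2) * (K * y i) →
        ∑ j ∈ range (2 * N / 2 ^ i + 1), Nb (xs (Dn (2 * N))) (2 ^ i) (g j).1 (g j).2 F ≤
          18 * (L + 2) * (K * N) * (((2 ^ i : ℕ) : ℝ)) ^ (3/4 : ℝ) := by
      intro i hi g hg
      unfold Yb at hg
      have h1 : (0:ℝ) < (((2 ^ i : ℕ) : ℝ)) ^ (2 - 1/4 : ℝ) := Real.rpow_pos_of_pos (hρ0 i) _
      rw [← sum_div, div_lt_iff₀ h1] at hg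
      refine hg.le.trans (le_of_eq ?_)
      have h2 : (((2 ^ i : ℕ) : ℝ)) ^ (2 - 1/4 : ℝ) =
          ((2 ^ i : ℕ) : ℝ) * (((2 ^ i : ℕ) : ℝ)) ^ (3/4 : ℝ) := by
        rw [← Real.rpow_one_add' (hρ0 i).le (by norm_num)]
        norm_num
      rw [h2, hy]
      simp only
      have := (hρ0 i).ne'
      field_simp
      ring
    have hper := per_det (r := r) hn2 hI1 hv (big_mono hn1 n1) n2.le
      (fun i => 18 * (L + 2) * (K * N) * (((2 ^ i : ℕ) : ℝ)) ^ (3/4 : ℝ))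
      (fun i hi k hk => conv i hi (fun j => (0 + ((k:ℕ):ℤ) * ((2 ^ i : ℕ):ℤ), 0 + ((j:ℕ):ℤ) * ((2 ^ i : ℕ):ℤ)))
        (n3 i (mem_range.2 hi) k (mem_range.2 hk)))
      (fun i hi k hk => conv i hi (fun j => (0 + ((j:ℕ):ℤ) * ((2 ^ i : ℕ):ℤ), 0 + ((k:ℕ):ℤ) * ((2 ^ i : ℕ):ℤ)))
        (n4 i (mem_range.2 hi) k (mem_range.2 hk)))
    have hA := hlt.trans_le hper
    -- estimates
    have hK14 : 1 ≤ (K:ℝ) ^ (1/4 : ℝ) := Real.one_le_rpow (by linarith) (by norm_num)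
    have hN74 : (N:ℝ) ≤ (N:ℝ) ^ (7/4 : ℝ) := by
      calc (N:ℝ) = (N:ℝ) ^ (1:ℝ) := (Real.rpow_one _).symm
        _ ≤ _ := Real.rpow_le_rpow_of_exponent_le (by linarith) (by norm_num)
    have hX0 : 0 < (K:ℝ) ^ (1/4 : ℝ) * (N:ℝ) ^ (7/4 : ℝ) := by positivity
    have b1 : (l / 2) * (K:ℝ) ^ (1/4 : ℝ) * (((2 * N + 1 : ℕ) : ℝ)) ^ (2 - 1/4 : ℝ) ≤
        9 * l / 2 * ((K:ℝ) ^ (1/4 : ℝ) * (N:ℝ) ^ (7/4 : ℝ)) := by
      have c1 : (((2 * N + 1 : ℕ) : ℝ)) ^ (2 - 1/4 : ℝ) ≤ 9 * (N:ℝ) ^ (7/4 : ℝ) := by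
        calc (((2 * N + 1 : ℕ) : ℝ)) ^ (2 - 1/4 : ℝ) ≤ (3 * (N:ℝ)) ^ (2 - 1/4 : ℝ) := by
              refine Real.rpow_le_rpow (by positivity) ?_ (by norm_num)
              push_cast
              linarith
          _ = 3 ^ (7/4 : ℝ) * (N:ℝ) ^ (7/4 : ℝ) := by
              rw [Real.mul_rpow (by norm_num) hN0.le]
              norm_num
          _ ≤ 9 * (N:ℝ) ^ (7/4 : ℝ) := by
              refine mul_le_mul_of_nonneg_right ?_ (by positivity)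
              calc (3:ℝ) ^ (7/4 : ℝ) ≤ 3 ^ (2:ℝ) :=
                    Real.rpow_le_rpow_of_exponent_le (by norm_num) (by norm_num)
                _ = 9 := by norm_num
      calc (l / 2) * (K:ℝ) ^ (1/4 : ℝ) * (((2 * N + 1 : ℕ) : ℝ)) ^ (2 - 1/4 : ℝ) ≤
            (l / 2) * (K:ℝ) ^ (1/4 : ℝ) * (9 * (N:ℝ) ^ (7/4 : ℝ)) :=
            mul_le_mul_of_nonneg_left c1 (by positivity)
        _ = _ := by ring
    have b2 : 4 * ((n:ℝ) + 1) ≤ 12 * ((K:ℝ) ^ (1/4 : ℝ) * (N:ℝ) ^ (7/4 : ℝ)) := by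
      have c1 : (n:ℝ) ≤ 2 * N := by exact_mod_cast hn2
      have c2 : (N:ℝ) ≤ (K:ℝ) ^ (1/4 : ℝ) * (N:ℝ) ^ (7/4 : ℝ) := by nlinarith
      linarith
    have b3 : ∑ i ∈ range I, 2 * (18 * (L + 2) * (K * N) * (((2 ^ i : ℕ) : ℝ)) ^ (3/4 : ℝ)) ≤
        2 * (216 * (L + 2)) * ((K:ℝ) ^ (1/4 : ℝ) * (N:ℝ) ^ (7/4 : ℝ)) := by
      have c1 := geo_sum s1 hI2
      have c2 : (K:ℝ) * (2 * (r:ℝ)) ^ (3/4 : ℝ) ≤ (K:ℝ) ^ (1/4 : ℝ) * (6 * (N:ℝ) ^ (3/4 : ℝ)) := by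
        have d1 : (K:ℝ) = (K:ℝ) ^ (1/4 : ℝ) * (K:ℝ) ^ (3/4 : ℝ) := by
          rw [← Real.rpow_add hK0]; norm_num
        calc (K:ℝ) * (2 * (r:ℝ)) ^ (3/4 : ℝ) =
              (K:ℝ) ^ (1/4 : ℝ) * ((K:ℝ) ^ (3/4 : ℝ) * (2 * (r:ℝ)) ^ (3/4 : ℝ)) := by
              rw [← mul_assoc, ← d1]
          _ = (K:ℝ) ^ (1/4 : ℝ) * (K * (2 * (r:ℝ))) ^ (3/4 : ℝ) := by
              rw [Real.mul_rpow hK0.le (by positivity)]
          _ ≤ (K:ℝ) ^ (1/4 : ℝ) * (6 * (N:ℝ)) ^ (3/4 : ℝ) := by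
              refine mul_le_mul_of_nonneg_left ?_ (by positivity)
              refine Real.rpow_le_rpow (by positivity) ?_ (by norm_num)
              linarith
          _ ≤ (K:ℝ) ^ (1/4 : ℝ) * (6 * (N:ℝ) ^ (3/4 : ℝ)) := by
              refine mul_le_mul_of_nonneg_left ?_ (by positivity)
              rw [Real.mul_rpow (by norm_num) hN0.le]
              refine mul_le_mul_of_nonneg_right ?_ (by positivity)
              calc (6:ℝ) ^ (3/4 : ℝ) ≤ 6 ^ (1:ℝ) :=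
                    Real.rpow_le_rpow_of_exponent_le (by norm_num) (by norm_num)
                _ = 6 := by norm_num
      have c3 : (N:ℝ) * (N:ℝ) ^ (3/4 : ℝ) = (N:ℝ) ^ (7/4 : ℝ) := by
        rw [← Real.rpow_one_add' hN0.le (by norm_num)]
        norm_num
      rw [← mul_sum, ← mul_sum]
      calc 2 * (18 * (L + 2) * (K * N) * ∑ i ∈ range I, (((2 ^ i : ℕ) : ℝ)) ^ (3/4 : ℝ))
          ≤ 2 * (18 * (L + 2) * (K * N) * (2 * (2 * (r : ℝ)) ^ (3/4 : ℝ))) := by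
            refine mul_le_mul_of_nonneg_left ?_ (by norm_num)
            exact mul_le_mul_of_nonneg_left c1 (by positivity)
        _ = 72 * (L + 2) * N * ((K:ℝ) * (2 * (r:ℝ)) ^ (3/4 : ℝ)) := by ring
        _ ≤ 72 * (L + 2) * N * ((K:ℝ) ^ (1/4 : ℝ) * (6 * (N:ℝ) ^ (3/4 : ℝ))) :=
            mul_le_mul_of_nonneg_left c2 (by positivity)
        _ = 2 * (216 * (L + 2)) * ((K:ℝ) ^ (1/4 : ℝ) * ((N:ℝ) * (N:ℝ) ^ (3/4 : ℝ))) := by ring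
        _ = _ := by rw [c3]
    rw [mul_assoc] at hA
    generalize (K:ℝ) ^ (1/4 : ℝ) * (N:ℝ) ^ (7/4 : ℝ) = X at *
    linarith
  have q1 : Real.exp (-((K : ℝ) * K)) ≤ Real.exp (-(((K : ℝ) * K) / 512)) := by
    refine Real.exp_le_exp.2 ?_
    have : 0 ≤ (K:ℝ) * K := by positivity
    linarith
  refine hdet.trans ((Pr_or_le hok _ _ _).trans ((add_le_add ((Pr_or_le hok _ _ _).trans
    (add_le_add p1 p2)) ((Pr_or_le hok _ _ _).trans (add_le_add p3 p4))).trans ?_))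
  linarith

end Pool.Agent.N956.PL
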