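import Pool.Agent.N956.PL.Const
import Pool.Agent.Results.MP_6bd702_pr.PerimeterExponent
import Pool.Agent.TH494.PT.Fin1

/-!
The law of the iterated logarithm for the perimeter of the largest cluster.
-/

set_option autoImplicit false

namespace Pool.Agent.N956.PL

open H974 H342P H342P.Plain H984P H984N MeasureTheory Filter Topology

theorem comp1 : Comp (fun F v => perimeter F v) :=
  fun _ _ _ _ _ hg hv => (largest_cut hg hv).2.2

theorem comp2 : Comp (fun F v => perimeterEdges F v) :=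
  fun _ _ _ _ _ hg hv => (largest_cut hg hv).2.1

theorem top : ∃ c C L L' : ℝ, 0 < c ∧ c ≤ L ∧ L ≤ C ∧ c ≤ L' ∧ L' ≤ C ∧
    ∀ᵐ ω ∂crit,
      limsup (fun n : ℕ => (longest (fun F v => perimeter F v) n (op (Bo n) ω) : ℝ) / rate n)
        atTop = L ∧
      limsup (fun n : ℕ => (longest (fun F v => perimeterEdges F v) n (op (Bo n) ω) : ℝ) / rate n)
        atTop = L' ∧
      (∀ᶠ n : ℕ in atTop, ∀ v, Largest n (op (Bo n) ω) v →
        (perimeter (op (Bo n) ω) v : ℝ) ≤ C * rate n) ∧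
      ∃ᶠ n : ℕ in atTop, ∀ v, Largest n (op (Bo n) ω) v →
        c * rate n ≤ (perimeterEdges (op (Bo n) ω) v : ℝ) := by
  obtain ⟨⟨c0, hc0, hL⟩, C0, hC0, hU⟩ :=
    Pool.Agent.Results.MP_6bd702_pr.PerimeterExponent.inputs
  obtain ⟨c2, K2, h3, h4, hlow⟩ := TH494.PT.fin_low hc0 hL hC0 hU
  obtain ⟨c, hc, h5⟩ := low h3 h4 hlow
  obtain ⟨C, hC, h6⟩ := up hC0 hU
  have h5' : ∀ᵐ ω ∂crit, ∃ᶠ n : ℕ in atTop, ∀ v, Largest n (op (Bo n) ω) v →
      c * rate n ≤ (perimeterEdges (op (Bo n) ω) v : ℝ) := by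
    filter_upwards [h5] with ω hω
    refine hω.mono fun n hn v hv => ?_
    have := hn v hv
    unfold rate
    rwa [← mul_assoc]
  obtain ⟨L, a1, a2, a3⟩ := const comp1 hc (C := C) (by
    filter_upwards [h5'] with ω hω
    refine hω.mono fun n hn v hv => (hn v hv).trans ?_
    exact_mod_cast perimeterEdges_le _ _) h6
  obtain ⟨L', b1, b2, b3⟩ := const comp2 hc (C := C) h5' (by
    filter_upwards [h6] with ω hω
    refine hω.mono fun n hn v hv => le_trans ?_ (hn v hv)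
    exact_mod_cast perimeterEdges_le _ _)
  refine ⟨c, C, L, L', hc, a1, a2, b1, b2, ?_⟩
  filter_upwards [a3, b3, h6, h5'] with ω g1 g2 g3 g4
  exact ⟨g1, g2, g3, g4⟩

end Pool.Agent.N956.PL
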