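import Pool.Agent.N956.PL.MaxC
import Pool.Agent.N956.PL.Low

/-!
The upper half of the law of the iterated logarithm for the perimeter of the largest cluster.
-/

set_option autoImplicit false

namespace Pool.Agent.N956.PL

open H974 H342P H342P.Plain H984P H984N MeasureTheory Filter Topology

/-- the number of blocks in the scale `m` -/
noncomputable def Km (m : ℕ) : ℕ := ⌈32 * Real.sqrt (Real.log m)⌉₊ + 8

theorem Km_ge (m : ℕ) : 32 * Real.sqrt (Real.log m) ≤ Km m := by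
  unfold Km
  push_cast
  have := Nat.le_ceil (32 * Real.sqrt (Real.log m))
  linarith

theorem Km_le (m : ℕ) : (Km m : ℝ) ≤ 32 * Real.sqrt (Real.log m) + 9 := by
  unfold Km
  push_cast
  have := Nat.ceil_lt_add_one (show 0 ≤ 32 * Real.sqrt (Real.log m) by positivity)
  linarith

theorem Km_pow {m : ℕ} (hm : 8 ≤ m) : Km m ≤ 2 * 2 ^ m + 1 := by
  have h1 : Real.sqrt (Real.log m) ≤ m := by
    have hm1 : (1:ℝ) ≤ m := by exact_mod_cast (by omega : 1 ≤ m)
    have h2 : Real.log m ≤ m := by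
      have := Real.log_le_sub_one_of_pos (show (0:ℝ) < m by linarith)
      linarith
    calc Real.sqrt (Real.log m) ≤ Real.sqrt m := Real.sqrt_le_sqrt h2
      _ ≤ m := by rw [Real.sqrt_le_left (by linarith)]; nlinarith
  have h2 : (Km m : ℝ) ≤ 32 * m + 9 := by
    have := Km_le m
    linarith
  have h3 : Km m ≤ 32 * m + 9 := by exact_mod_cast h2
  have h4 : 32 * m + 9 ≤ 2 * 2 ^ m + 1 := by
    clear h1 h2 h3
    induction m, hm using Nat.le_induction with
    | base => norm_num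
    | succ m hm ih =>
      rw [pow_succ]
      have : 32 ≤ 2 ^ m := by
        calc 32 = 2 ^ 5 := by norm_num
          _ ≤ 2 ^ m := Nat.pow_le_pow_right (by norm_num) (by omega)
      omega
  omega

/-- the event in one scale -/
def Am (B : ℝ) (m : ℕ) (F : Finset Edg) : Prop := ∃ n : ℕ, 2 ^ m ≤ n ∧ n ≤ 2 * 2 ^ m ∧
  ∃ v, IsMax n (↑(F ∩ RE 0 n 0 n)) v ∧
    B * (Km m : ℝ) ^ (1/4 : ℝ) * (((2 ^ m : ℕ)) : ℝ) ^ (7/4 : ℝ) <
      (per n (↑(F ∩ RE 0 n 0 n)) v : ℝ)

theorem up_scale {C : ℝ} (hC : 0 < C) (hU : TwoUp C (1/4)) : ∃ B : ℝ, 0 < B ∧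
    ∀ᵐ ω ∂crit, ∀ᶠ m : ℕ in atTop, ¬ Am B m (op (Bo (2 * 2 ^ m)) ω) := by
  obtain ⟨B, hB, h⟩ := max_ineq hC hU
  refine ⟨B, hB, bc1 (fun m => Bo (2 * 2 ^ m)) (Am B) ?_⟩
  have hs : Summable (fun m : ℕ => 26 * ((m:ℝ) ^ 2)⁻¹) :=
    Summable.mul_left 26 (Real.summable_nat_pow_inv.2 (by norm_num))
  refine Summable.of_norm_bounded_eventually_nat hs ?_
  filter_upwards [eventually_ge_atTop 8] with m hm
  rw [Real.norm_of_nonneg (Pr_nonneg ok2 _ _)]
  refine (h (2 ^ m) (Km m) (by unfold Km; omega) (Km_pow hm)).trans ?_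
  refine mul_le_mul_of_nonneg_left ?_ (by norm_num)
  have hm0 : (0:ℝ) < m := by exact_mod_cast (by omega : 0 < m)
  have hl : 0 ≤ Real.log m := Real.log_nonneg (by exact_mod_cast (by omega : 1 ≤ m))
  have h1 := Km_ge m
  have h2 : 1024 * Real.log m ≤ (Km m : ℝ) * Km m := by
    have h3 : (32 * Real.sqrt (Real.log m)) * (32 * Real.sqrt (Real.log m)) ≤
        (Km m : ℝ) * Km m := mul_self_le_mul_self (by positivity) h1
    have h4 := Real.mul_self_sqrt hl
    nlinarith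
  calc Real.exp (-(((Km m : ℝ) * Km m) / 512)) ≤ Real.exp (-(2 * Real.log m)) := by
        refine Real.exp_le_exp.2 ?_
        linarith
    _ = ((m:ℝ) ^ 2)⁻¹ := by
        rw [Real.exp_neg, two_mul, Real.exp_add, Real.exp_log hm0]
        ring

/-- the rate -/
noncomputable def rate (n : ℕ) : ℝ := (n:ℝ) ^ (7/4 : ℝ) * (Real.log (Real.log n)) ^ (1/8 : ℝ)

/-- The upper half of the law of the iterated logarithm. -/
theorem up {C : ℝ} (hC : 0 < C) (hU : TwoUp C (1/4)) : ∃ B : ℝ, 0 < B ∧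
    ∀ᵐ ω ∂crit, ∀ᶠ n : ℕ in atTop, ∀ v, Largest n (op (Bo n) ω) v →
      (perimeter (op (Bo n) ω) v : ℝ) ≤ B * rate n := by
  obtain ⟨B, hB, h⟩ := up_scale hC hU
  refine ⟨6 * B, by positivity, ?_⟩
  filter_upwards [h] with ω hω
  have hlog2 : Tendsto (fun n : ℕ => Nat.log 2 n) atTop atTop :=
    tendsto_atTop.2 fun b => eventually_atTop.2 ⟨2 ^ b, fun n hn =>
      Nat.le_log_of_pow_le (by norm_num) hn⟩
  have hln : Tendsto (fun n : ℕ => Real.log (n:ℝ)) atTop atTop :=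
    Real.tendsto_log_atTop.comp tendsto_natCast_atTop_atTop
  have hlnm : Tendsto (fun n : ℕ => Real.log ((Nat.log 2 n : ℕ) : ℝ)) atTop atTop :=
    hln.comp hlog2
  filter_upwards [hlog2.eventually hω, hln.eventually_ge_atTop 2,
    hlnm.eventually_ge_atTop 1, eventually_ge_atTop 1] with n h1 h2 h3 hn1 v hv
  obtain ⟨m, hm⟩ : ∃ m, m = Nat.log 2 n := ⟨_, rfl⟩
  rw [← hm] at h1 h3
  have hmn : 2 ^ m ≤ n := by rw [hm]; exact Nat.pow_log_le_self 2 (by omega)
  have hmn2 : n ≤ 2 * 2 ^ m := by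
    have := Nat.lt_pow_succ_log_self (b := 2) (by norm_num) n
    rw [← hm, pow_succ] at this
    omega
  have hFn : op (Bo (2 * 2 ^ m)) ω ∩ RE 0 n 0 n = op (Bo n) ω := op_inter (Bo_mono hmn2) ω
  have h4 : (per n (↑(op (Bo n) ω)) v : ℝ) ≤
      B * (Km m : ℝ) ^ (1/4 : ℝ) * (((2 ^ m : ℕ)) : ℝ) ^ (7/4 : ℝ) := by
    by_contra hcon
    push Not at hcon
    refine h1 ⟨n, hmn, hmn2, v, ?_⟩
    rw [hFn]
    exact ⟨isMax_of_largest hv, hcon⟩
  rw [perimeter_eq (n := n) (by rw [edges_eq]; exact op_sub _ _)]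
  refine h4.trans ?_
  have hn0 : (0:ℝ) < n := by exact_mod_cast hn1
  have e1 : (((2 ^ m : ℕ)) : ℝ) ^ (7/4 : ℝ) ≤ (n:ℝ) ^ (7/4 : ℝ) :=
    Real.rpow_le_rpow (by positivity) (by exact_mod_cast hmn) (by norm_num)
  have e2 : (Km m : ℝ) ≤ 81 * Real.sqrt (Real.log m) := by
    have := Km_le m
    have h5 : 1 ≤ Real.sqrt (Real.log m) := Real.one_le_sqrt.2 h3
    linarith
  have hmlog : Real.log m ≤ 2 * Real.log (Real.log n) := by
    have hm0 : (0:ℝ) < m := by
      by_contra hcon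
      have : (m:ℝ) = 0 := le_antisymm (not_lt.1 hcon) (Nat.cast_nonneg _)
      rw [this, Real.log_zero] at h3
      linarith
    have g1 : (m:ℝ) * Real.log 2 ≤ Real.log n := by
      rw [← Real.log_pow]
      refine Real.log_le_log (by positivity) ?_
      exact_mod_cast hmn
    have g2 : (1/2 : ℝ) ≤ Real.log 2 := by
      have := Real.log_two_gt_d9
      linarith
    have g3 : (m:ℝ) ≤ Real.log n * Real.log n := by nlinarith
    calc Real.log m ≤ Real.log (Real.log n * Real.log n) := Real.log_le_log hm0 g3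
      _ = 2 * Real.log (Real.log n) := by
        rw [Real.log_mul (by linarith) (by linarith)]; ring
  have hll : 0 < Real.log (Real.log n) := by linarith
  have e3 : (Km m : ℝ) ^ (1/4 : ℝ) ≤ 6 * (Real.log (Real.log n)) ^ (1/8 : ℝ) := by
    calc (Km m : ℝ) ^ (1/4 : ℝ) ≤ (81 * Real.sqrt (Real.log m)) ^ (1/4 : ℝ) :=
          Real.rpow_le_rpow (Nat.cast_nonneg _) e2 (by norm_num)
      _ = (81:ℝ) ^ (1/4 : ℝ) * (Real.sqrt (Real.log m)) ^ (1/4 : ℝ) :=
          Real.mul_rpow (by norm_num) (Real.sqrt_nonneg _)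
      _ = 3 * (Real.log m) ^ (1/8 : ℝ) := by
          congr 1
          · rw [show (81:ℝ) = 3 ^ (4:ℝ) by norm_num, ← Real.rpow_mul (by norm_num)]
            norm_num
          · rw [Real.sqrt_eq_rpow, ← Real.rpow_mul (by linarith)]
            norm_num
      _ ≤ 3 * (2 * Real.log (Real.log n)) ^ (1/8 : ℝ) := by
          refine mul_le_mul_of_nonneg_left ?_ (by norm_num)
          exact Real.rpow_le_rpow (by linarith) hmlog (by norm_num)
      _ = 3 * ((2:ℝ) ^ (1/8 : ℝ) * (Real.log (Real.log n)) ^ (1/8 : ℝ)) := by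
          rw [Real.mul_rpow (by norm_num) hll.le]
      _ ≤ 3 * (2 * (Real.log (Real.log n)) ^ (1/8 : ℝ)) := by
          refine mul_le_mul_of_nonneg_left ?_ (by norm_num)
          refine mul_le_mul_of_nonneg_right ?_ (by positivity)
          calc (2:ℝ) ^ (1/8 : ℝ) ≤ 2 ^ (1:ℝ) :=
                Real.rpow_le_rpow_of_exponent_le (by norm_num) (by norm_num)
            _ = 2 := by norm_num
      _ = _ := by ring
  unfold rate
  calc B * (Km m : ℝ) ^ (1/4 : ℝ) * (((2 ^ m : ℕ)) : ℝ) ^ (7/4 : ℝ)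
      ≤ B * (6 * (Real.log (Real.log n)) ^ (1/8 : ℝ)) * (n:ℝ) ^ (7/4 : ℝ) := by
        refine mul_le_mul (mul_le_mul_of_nonneg_left e3 hB.le) e1 (by positivity) (by positivity)
    _ = _ := by ring

end Pool.Agent.N956.PL
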